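import Mathlib

/-!
Power sums and factorials modulo a prime.
-/

namespace Pool.Agent.L0h40.WT

open Finset

variable {p : ℕ} [Fact p.Prime]

theorem fact_refl (n : ℕ) (hn : n < p) :
    ((n.factorial : ℕ) : ZMod p) * (((p - 1 - n).factorial : ℕ) : ZMod p) = (-1) ^ (n + 1) := by
  induction n with
  | zero =>
    rw [Nat.sub_zero, ZMod.wilsons_lemma]
    simp
  | succ n ih =>
    have h1 := ih (by omega)
    have h2 : p - 1 - n = (p - 1 - (n + 1)) + 1 := by omega
    rw [h2, Nat.factorial_succ] at h1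
    have h3 : (((p - 1 - (n + 1) + 1 : ℕ)) : ZMod p) = -((n + 1 : ℕ) : ZMod p) := by
      have h4 : p - 1 - (n + 1) + 1 + (n + 1) = p := by omega
      have h5 : (((p - 1 - (n + 1) + 1 + (n + 1) : ℕ)) : ZMod p) = 0 := by
        rw [h4]; exact ZMod.natCast_self p
      push_cast at h5 ⊢
      linear_combination h5
    rw [Nat.cast_mul, h3] at h1
    rw [Nat.factorial_succ, Nat.cast_mul, pow_succ]
    linear_combination (-1) * h1

theorem sum_pow_big (i : ℕ) (h1 : p - 1 < i) (h2 : i < 2 * (p - 1)) :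
    ∑ x : ZMod p, x ^ i = 0 := by
  have hp : 1 < p := (Fact.out : p.Prime).one_lt
  have h3 : ∀ x : ZMod p, x ^ i = x ^ (i - (p - 1)) := by
    intro x
    by_cases hx : x = 0
    · rw [hx, zero_pow (by omega), zero_pow (by omega)]
    · have h4 : x ^ (p - 1) = 1 := ZMod.pow_card_sub_one_eq_one hx
      have h5 : i = (p - 1) + (i - (p - 1)) := by omega
      conv_lhs => rw [h5, pow_add, h4, one_mul]
  rw [Finset.sum_congr rfl (fun x _ => h3 x)]
  apply FiniteField.sum_pow_lt_card_sub_one
  rw [ZMod.card]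
  omega

theorem sum_pow_eq : ∑ x : ZMod p, x ^ (p - 1) = -1 := by
  have hp : 1 < p := (Fact.out : p.Prime).one_lt
  have h1 : ∀ x : ZMod p, x ^ (p - 1) = 1 - if x = 0 then 1 else 0 := by
    intro x
    by_cases hx : x = 0
    · rw [hx, zero_pow (by omega), if_pos rfl, sub_self]
    · rw [if_neg hx, sub_zero]
      exact ZMod.pow_card_sub_one_eq_one hx
  rw [Finset.sum_congr rfl (fun x _ => h1 x), Finset.sum_sub_distrib]
  simp

/-- expansion of `∑ (x (1 - x)) ^ e` -/
theorem sum_expand (e : ℕ) : ∑ x : ZMod p, x ^ e * (1 - x) ^ e =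
    ∑ j ∈ range (e + 1), (e.choose j : ZMod p) * (-1) ^ j * ∑ x : ZMod p, x ^ (e + j) := by
  have h1 : ∀ x : ZMod p, x ^ e * (1 - x) ^ e =
      ∑ j ∈ range (e + 1), (e.choose j : ZMod p) * (-1) ^ j * x ^ (e + j) := by
    intro x
    have h2 : (1 - x) ^ e = (-x + 1) ^ e := by ring
    rw [h2, add_pow, Finset.mul_sum]
    refine Finset.sum_congr rfl fun j _ => ?_
    rw [one_pow, mul_one, neg_pow, pow_add]
    ring
  rw [Finset.sum_congr rfl (fun x _ => h1 x), Finset.sum_comm]
  refine Finset.sum_congr rfl fun j _ => ?_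
  rw [Finset.mul_sum]

theorem sum_small (e : ℕ) (he : 2 * e < p - 1) : ∑ x : ZMod p, x ^ e * (1 - x) ^ e = 0 := by
  rw [sum_expand]
  refine Finset.sum_eq_zero fun j hj => ?_
  rw [Finset.mem_range] at hj
  rw [FiniteField.sum_pow_lt_card_sub_one, mul_zero]
  rw [ZMod.card]
  omega

theorem choose_refl (c : ℕ) (hc : 2 * c ≤ p - 1) :
    ((p - 1 - c).choose c : ZMod p) = (-1) ^ c * ((2 * c).choose c : ZMod p) := by
  have hp : 1 < p := (Fact.out : p.Prime).one_lt
  have nz : ∀ n : ℕ, n < p → ((n.factorial : ℕ) : ZMod p) ≠ 0 := by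
    intro n hn h
    rw [ZMod.natCast_eq_zero_iff] at h
    exact absurd ((Nat.Prime.dvd_factorial Fact.out).mp h) (by omega)
  have h1 := Nat.choose_mul_factorial_mul_factorial (show c ≤ p - 1 - c by omega)
  have h2 := Nat.choose_mul_factorial_mul_factorial (show c ≤ 2 * c by omega)
  have h3 : p - 1 - c - c = p - 1 - 2 * c := by omega
  have h4 : 2 * c - c = c := by omega
  rw [h3] at h1
  rw [h4] at h2
  have h1' : ((p - 1 - c).choose c : ZMod p) * (c.factorial : ZMod p) *
      ((p - 1 - 2 * c).factorial : ZMod p) = ((p - 1 - c).factorial : ZMod p) := by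
    exact_mod_cast congrArg (Nat.cast : ℕ → ZMod p) h1
  have h2' : ((2 * c).choose c : ZMod p) * (c.factorial : ZMod p) *
      (c.factorial : ZMod p) = ((2 * c).factorial : ZMod p) := by
    exact_mod_cast congrArg (Nat.cast : ℕ → ZMod p) h2
  have r1 := fact_refl (p := p) c (by omega)
  have r2 := fact_refl (p := p) (2 * c) (by omega)
  have e1 : ((-1 : ZMod p)) ^ (2 * c + 1) = -1 := by
    rw [pow_succ, pow_mul]; simp
  rw [e1] at r2
  have hc0 := nz c (by omega)
  have h2c0 := nz (2 * c) (by omega)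
  have key : ((p - 1 - c).choose c : ZMod p) * ((c.factorial : ZMod p) * (c.factorial : ZMod p)) =
      (-1) ^ c * ((2 * c).factorial : ZMod p) := by
    have : ((p - 1 - c).choose c : ZMod p) * (c.factorial : ZMod p) * (c.factorial : ZMod p) *
        (((2 * c).factorial : ZMod p) * ((p - 1 - 2 * c).factorial : ZMod p)) =
        ((p - 1 - c).factorial : ZMod p) * (c.factorial : ZMod p) * ((2 * c).factorial : ZMod p) := by
      rw [← h1']; ring
    rw [r2, mul_comm ((p - 1 - c).factorial : ZMod p) (c.factorial : ZMod p), r1] at this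
    linear_combination (-1) * this
  rw [← h2'] at key
  have hcc : (c.factorial : ZMod p) * (c.factorial : ZMod p) ≠ 0 := mul_ne_zero hc0 hc0
  apply mul_right_cancel₀ hcc
  rw [key]
  ring

theorem sum_large (c : ℕ) (hc0 : 0 < c) (hc : 2 * c < p - 1) :
    ∑ x : ZMod p, x ^ (p - 1 - c) * (1 - x) ^ (p - 1 - c) = - ((2 * c).choose c : ZMod p) := by
  rw [sum_expand, Finset.sum_eq_single c]
  · have h1 : p - 1 - c + c = p - 1 := by omega
    rw [h1, sum_pow_eq, choose_refl c hc.le]
    have : ((-1 : ZMod p)) ^ c * (-1) ^ c = 1 := by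
      rw [← mul_pow]; simp
    linear_combination (-((2 * c).choose c : ZMod p)) * this
  · intro j hj hjc
    rw [Finset.mem_range] at hj
    rcases lt_or_gt_of_ne hjc with h | h
    · rw [FiniteField.sum_pow_lt_card_sub_one, mul_zero]
      rw [ZMod.card]; omega
    · rw [sum_pow_big, mul_zero]
      · omega
      · omega
  · intro h
    exfalso
    apply h
    rw [Finset.mem_range]
    omega

end Pool.Agent.L0h40.WT
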