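import Mathlib
import Pool.Agent.L0h40.WT.Sums

/-!
Facts about the ring of integers of the `2 ^ k`-th cyclotomic field.
-/

namespace Pool.Agent.L0h40.WT

open Finset NumberField Polynomial

variable {k : ℕ} {K : Type} [Field K] [NumberField K] [IsCyclotomicExtension {2 ^ k} ℚ K]

theorem toK {ζ : 𝓞 K} (hζ : IsPrimitiveRoot ζ (2 ^ k)) : IsPrimitiveRoot (ζ : K) (2 ^ k) :=
  hζ.map_of_injective (FaithfulSMul.algebraMap_injective (𝓞 K) K)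

theorem toInt_eq {ζ : 𝓞 K} (hζ : IsPrimitiveRoot ζ (2 ^ k)) : (toK hζ).toInteger = ζ := by
  apply RingOfIntegers.ext
  rfl

/-- homomorphisms to a commutative ring -/
theorem exists_hom (hk : 1 ≤ k) {ζ : 𝓞 K} (hζ : IsPrimitiveRoot ζ (2 ^ k)) {R : Type} [CommRing R]
    (t : R) (ht : t ^ 2 ^ (k - 1) = -1) : ∃ φ : 𝓞 K →+* R, φ ζ = t := by
  let pb := (toK hζ).integralPowerBasis
  have h1 : pb.gen = ζ := by
    rw [(toK hζ).integralPowerBasis_gen, toInt_eq hζ]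
  have h2 : aeval t (minpoly ℤ pb.gen) = 0 := by
    have h0 : minpoly ℤ ζ = cyclotomic (2 ^ k) ℤ := by
      rw [cyclotomic_eq_minpoly (toK hζ) (by positivity)]
      exact (minpoly.algebraMap_eq (FaithfulSMul.algebraMap_injective (𝓞 K) K) ζ).symm
    rw [h1, h0]
    obtain ⟨j, rfl⟩ : ∃ j, k = j + 1 := ⟨k - 1, by omega⟩
    rw [cyclotomic_prime_pow_eq_geom_sum Nat.prime_two]
    simp only [Finset.sum_range_succ, Finset.range_zero, Finset.sum_empty, pow_zero, pow_one,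
      zero_add, map_add, map_one, map_pow, aeval_X]
    rw [Nat.add_sub_cancel] at ht
    rw [ht]; ring
  refine ⟨(pb.lift t h2).toRingHom, ?_⟩
  have h3 := pb.lift_gen t h2
  rw [h1] at h3
  exact h3

/-- every integer is a polynomial in `ζ` -/
theorem exists_poly {ζ : 𝓞 K} (hζ : IsPrimitiveRoot ζ (2 ^ k)) (z : 𝓞 K) :
    ∃ P : ℤ[X], z = aeval ζ P := by
  obtain ⟨P, hP⟩ := (toK hζ).integralPowerBasis.exists_eq_aeval' z
  rw [(toK hζ).integralPowerBasis_gen, toInt_eq hζ] at hP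
  exact ⟨P, hP⟩

/-- the kernel -/
theorem dvd_of_ker {ζ : 𝓞 K} (hζ : IsPrimitiveRoot ζ (2 ^ k)) {p : ℕ}
    (φ : 𝓞 K →+* ZMod p) (l : 𝓞 K) (R : ℤ) (hl : l ∣ ζ - (R : 𝓞 K)) (hlp : l ∣ (p : 𝓞 K))
    (hR : (R : ZMod p) = φ ζ) (z : 𝓞 K) (hz : φ z = 0) : l ∣ z := by
  obtain ⟨P, rfl⟩ := exists_poly hζ z
  have h1 : ζ - (R : 𝓞 K) ∣ aeval ζ P - aeval (R : 𝓞 K) P := by
    have := Polynomial.sub_dvd_eval_sub ζ (R : 𝓞 K) (P.map (algebraMap ℤ (𝓞 K)))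
    rwa [eval_map_algebraMap, eval_map_algebraMap] at this
  have h2 : aeval (R : 𝓞 K) P = ((P.eval R : ℤ) : 𝓞 K) := by
    have := Polynomial.aeval_algebraMap_apply (𝓞 K) R P
    simpa using this
  have h3 : ((P.eval R : ℤ) : ZMod p) = 0 := by
    rw [← hz]
    have h4 : φ (aeval ζ P) = aeval (φ ζ) P := by
      have h5 := Polynomial.hom_eval₂ P (algebraMap ℤ (𝓞 K)) φ ζ
      rw [aeval_def, h5, aeval_def]
      congr 1
      exact RingHom.ext_int _ _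
    rw [h4, ← hR]
    have := Polynomial.aeval_algebraMap_apply (ZMod p) R P
    simpa using this.symm
  rw [ZMod.intCast_zmod_eq_zero_iff_dvd] at h3
  obtain ⟨c, hc⟩ := h3
  have h4 : l ∣ aeval (R : 𝓞 K) P := by
    rw [h2, hc]
    push_cast
    exact Dvd.dvd.mul_right hlp _
  have h5 := dvd_add (dvd_trans hl h1) h4
  rwa [sub_add_cancel] at h5

/-- roots of unity -/
theorem root_of_unity (hk : 1 ≤ k) {ζ : 𝓞 K} (hζ : IsPrimitiveRoot ζ (2 ^ k)) (x : 𝓞 K)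
    (hx : ∀ σ : K →+* ℂ, ‖σ x‖ = 1) : ∃ i : ℕ, x = ζ ^ i := by
  obtain ⟨n, hn, hxn⟩ := Embeddings.pow_eq_one_of_norm_eq_one K ℂ x.isIntegral_coe hx
  have hxn' : x ^ n = 1 := by
    apply RingOfIntegers.ext
    simpa using hxn
  have hu : IsUnit x := IsUnit.of_pow_eq_one hxn' hn.ne'
  obtain ⟨w, rfl⟩ := hu
  have hw : w ∈ Units.torsion K := by
    refine (CommGroup.mem_torsion _).mpr (isOfFinOrder_iff_pow_eq_one.2 ⟨n, hn, ?_⟩)
    apply Units.ext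
    rw [Units.val_pow_eq_pow_val, hxn', Units.val_one]
  have h1 : Units.torsionOrder K = 2 ^ k := by
    rw [IsCyclotomicExtension.Rat.torsionOrder_eq (n := 2 ^ k), if_pos]
    exact (Nat.even_pow.2 ⟨even_two, by omega⟩)
  have h2 : w ^ (2 ^ k) = 1 := by
    have h3 : (⟨w, hw⟩ : Units.torsion K) ^ Nat.card (Units.torsion K) = 1 := pow_card_eq_one'
    have h4 : Nat.card (Units.torsion K) = 2 ^ k := h1
    rw [h4] at h3
    have := congrArg (fun y : Units.torsion K => (y : (𝓞 K)ˣ)) h3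
    simpa using this
  have h3 : (w : 𝓞 K) ^ (2 ^ k) = 1 := by
    rw [← Units.val_pow_eq_pow_val, h2, Units.val_one]
  obtain ⟨i, -, hi⟩ := hζ.eq_pow_of_pow_eq_one h3
  exact ⟨i, hi.symm⟩

/-- `ζ - 1` is not a unit -/
theorem not_unit (hk : 1 ≤ k) {ζ : 𝓞 K} (hζ : IsPrimitiveRoot ζ (2 ^ k)) : ¬ IsUnit (ζ - 1) := by
  obtain ⟨j, rfl⟩ : ∃ j, k = j + 1 := ⟨k - 1, by omega⟩
  have h1 := (toK hζ).zeta_sub_one_prime_of_two_pow
  have h2 := h1.not_isUnit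
  rwa [toInt_eq hζ] at h2

theorem two_dvd (hk : 2 ≤ k) {ζ : 𝓞 K} (hζ : IsPrimitiveRoot ζ (2 ^ k)) :
    (ζ - 1) ^ 2 ∣ (2 : 𝓞 K) := by
  obtain ⟨j, rfl⟩ : ∃ j, k = j + 2 := ⟨k - 2, by omega⟩
  have h1 : (ζ ^ 2 ^ j) ^ 2 = -1 := by
    have h2 : ((ζ ^ 2 ^ j) ^ 2) ^ 2 = 1 := by
      rw [← pow_mul, ← pow_mul]
      have : 2 ^ j * (2 * 2) = 2 ^ (j + 2) := by rw [pow_add]; ring
      rw [this, hζ.pow_eq_one]
    have h3 : (ζ ^ 2 ^ j) ^ 2 ≠ 1 := by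
      rw [← pow_mul, ← pow_succ]
      intro h
      have := (hζ.pow_eq_one_iff_dvd _).1 h
      have h5 := Nat.le_of_dvd (by positivity) this
      have h6 : 2 ^ (j + 1) < 2 ^ (j + 2) := Nat.pow_lt_pow_right (by norm_num) (by omega)
      omega
    rcases sq_eq_one_iff.1 h2 with h | h
    · exact absurd h h3
    · exact h
  have h2 : (2 : 𝓞 K) = (ζ ^ 2 ^ j - 1) * (-(ζ ^ 2 ^ j) - 1) := by
    linear_combination h1
  have h3 : ζ - 1 ∣ ζ ^ 2 ^ j - 1 := sub_one_dvd_pow_sub_one ζ _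
  have h4 : ζ - 1 ∣ -(ζ ^ 2 ^ j) - 1 := by
    have h5 : -(ζ ^ 2 ^ j) = ζ ^ (3 * 2 ^ j) := by
      have : ζ ^ (3 * 2 ^ j) = (ζ ^ 2 ^ j) ^ 2 * ζ ^ 2 ^ j := by
        rw [← pow_succ, ← pow_mul]; congr 1; ring
      rw [this, h1]; ring
    rw [h5]
    exact sub_one_dvd_pow_sub_one ζ _
  rw [h2, pow_two]
  exact mul_dvd_mul h3 h4

theorem even_of_dvd (hk : 1 ≤ k) {ζ : 𝓞 K} (hζ : IsPrimitiveRoot ζ (2 ^ k)) (n : ℕ)
    (h : (ζ - 1) ^ 2 ∣ ζ ^ n - 1) : Even n := by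
  by_contra hn
  rw [Nat.not_even_iff_odd] at hn
  have hc : Nat.Coprime n (2 ^ k) := (Nat.coprime_pow_right_iff (by omega) n 2).2
    (Nat.coprime_two_right.2 hn)
  have h1 : ζ ^ n - 1 ∣ ζ - 1 := by
    obtain ⟨m, -, hm⟩ := Nat.exists_mul_mod_eq_one_of_coprime hc (Nat.one_lt_two_pow (by omega))
    have h2 : ζ = (ζ ^ n) ^ m := by
      rw [← pow_mul, ← Nat.div_add_mod (n * m) (2 ^ k), hm, pow_add, pow_mul, hζ.pow_eq_one,
        one_pow, one_mul, pow_one]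
    conv_rhs => rw [h2]
    exact sub_one_dvd_pow_sub_one _ _
  have h2 : (ζ - 1) ^ 2 ∣ ζ - 1 := dvd_trans h h1
  have h3 : ζ - 1 ≠ 0 := by
    intro h
    have h4 : ζ = 1 := sub_eq_zero.1 h
    have h5 := hζ
    rw [h4] at h5
    have h6 := h5.eq_orderOf
    rw [orderOf_one] at h6
    have : 1 < 2 ^ k := Nat.one_lt_two_pow (by omega)
    omega
  obtain ⟨c, hc'⟩ := h2
  apply not_unit hk hζ
  have h4 : (ζ - 1) * ((ζ - 1) * c) = (ζ - 1) * 1 := by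
    rw [mul_one]
    conv_rhs => rw [hc']
    ring
  have h5 := mul_left_cancel₀ h3 h4
  exact IsUnit.of_mul_eq_one _ h5

end Pool.Agent.L0h40.WT
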