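import Mathlib
import Pool.Agent.L0h40.WT.Cyc

/-!
The characters of order `2 ^ k` and the reductions of their Jacobi sums.
-/

namespace Pool.Agent.L0h40.WT

open Finset NumberField Polynomial

variable {k : ℕ} {K : Type} [Field K] [NumberField K] [IsCyclotomicExtension {2 ^ k} ℚ K]
variable {p : ℕ} [Fact p.Prime]

theorem theta_prim {F : Type} [Field F] (hk : 1 ≤ k) {θ : F} (h2 : (-1 : F) ≠ 1)
    (hθ : θ ^ 2 ^ (k - 1) = -1) : IsPrimitiveRoot θ (2 ^ k) := by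
  obtain ⟨j, rfl⟩ : ∃ j, k = j + 1 := ⟨k - 1, by omega⟩
  rw [Nat.add_sub_cancel] at hθ
  have h3 := orderOf_eq_prime_pow (x := θ) (p := 2) (n := j) (by rw [hθ]; exact h2)
    (by rw [pow_succ, pow_mul, hθ]; ring)
  rw [← h3]
  exact IsPrimitiveRoot.orderOf θ

/-- existence of the character -/
theorem exists_char (hk : 1 ≤ k) {ζ : 𝓞 K} (hζ : IsPrimitiveRoot ζ (2 ^ k)) {f : ℕ}
    (hpf : p - 1 = 2 ^ k * f) (hf : 0 < f) {θ : ZMod p} (hθ : θ ^ 2 ^ (k - 1) = -1) (b : ℕ)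
    (hb : 0 < b) :
    ∃ ψ : MulChar (ZMod p) (𝓞 K), (∀ x, x ≠ 0 → ∃ i : ℕ, ψ x = ζ ^ i) ∧
      ∀ (φ : 𝓞 K →+* ZMod p) (u : ℕ), 0 < u → φ ζ = θ ^ u → ∀ x : ZMod p,
        φ (ψ x) = x ^ (b * f * u) := by
  classical
  have hp : 2 < p := by
    have h1 : 2 ≤ 2 ^ k * f := by
      have : 2 ^ 1 ≤ 2 ^ k := Nat.pow_le_pow_right (by norm_num) hk
      nlinarith
    omega
  have h2 : (-1 : ZMod p) ≠ 1 := by
    have : Fact (2 < p) := ⟨hp⟩
    exact ZMod.neg_one_ne_one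
  have hθp := theta_prim hk h2 hθ
  obtain ⟨g, hg⟩ := IsCyclic.exists_generator (α := (ZMod p)ˣ)
  have hgp : g ^ (p - 1) = 1 := by
    have := pow_card_eq_one (x := g)
    rwa [ZMod.card_units] at this
  have h3 : ((g : ZMod p) ^ (b * f)) ^ (2 ^ k) = 1 := by
    rw [← pow_mul]
    have : b * f * 2 ^ k = (p - 1) * b := by rw [hpf]; ring
    rw [this, pow_mul, ← Units.val_pow_eq_pow_val, hgp]
    simp
  obtain ⟨c, -, hc⟩ := hθp.eq_pow_of_pow_eq_one h3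
  have hζu : IsUnit ζ := hζ.isUnit (by positivity)
  let z : (𝓞 K)ˣ := hζu.unit
  have hz : (z : 𝓞 K) = ζ := hζu.unit_spec
  have hz1 : z ^ c ∈ rootsOfUnity (Fintype.card (ZMod p)ˣ) (𝓞 K) := by
    rw [mem_rootsOfUnity, ZMod.card_units, hpf]
    ext
    rw [Units.val_pow_eq_pow_val, Units.val_pow_eq_pow_val, hz, ← pow_mul]
    have : c * (2 ^ k * f) = 2 ^ k * (c * f) := by ring
    rw [this, pow_mul, hζ.pow_eq_one, one_pow, Units.val_one]
  let ψ := MulChar.ofRootOfUnity hz1 hg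
  have hψg : ψ g = ζ ^ c := by
    have := MulChar.ofRootOfUnity_spec hz1 hg
    rw [this, Units.val_pow_eq_pow_val, hz]
  have hpow : ∀ x : ZMod p, x ≠ 0 → ∃ n : ℕ, x = (g : ZMod p) ^ n := by
    intro x hx
    obtain ⟨n, hn⟩ := (isOfFinOrder_of_finite g).mem_powers_iff_mem_zpowers.2
      (hg (Units.mk0 x hx))
    refine ⟨n, ?_⟩
    have := congrArg (Units.val) hn
    simpa using this.symm
  refine ⟨ψ, ?_, ?_⟩
  · intro x hx
    obtain ⟨n, rfl⟩ := hpow x hx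
    refine ⟨c * n, ?_⟩
    rw [map_pow, hψg, ← pow_mul]
  · intro φ u hu hφ x
    by_cases hx : x = 0
    · rw [hx, MulChar.map_zero, map_zero, zero_pow]
      positivity
    · obtain ⟨n, rfl⟩ := hpow x hx
      rw [map_pow, hψg, map_pow, map_pow, hφ, ← pow_mul, ← pow_mul, ← pow_mul]
      have e1 : u * (c * n) = c * (u * n) := by ring
      have e2 : n * (b * f * u) = (b * f) * (u * n) := by ring
      rw [e1, e2, pow_mul, pow_mul _ (b * f), hc]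

theorem map_jacobi (ψ : MulChar (ZMod p) (𝓞 K)) (φ : 𝓞 K →+* ZMod p) (e : ℕ)
    (h : ∀ x : ZMod p, φ (ψ x) = x ^ e) :
    φ (jacobiSum ψ ψ) = ∑ x : ZMod p, x ^ e * (1 - x) ^ e := by
  unfold jacobiSum
  rw [map_sum]
  refine Finset.sum_congr rfl fun x _ => ?_
  rw [map_mul, h, h]

theorem pow_congr {f : ℕ} {k : ℕ} (hpf : p - 1 = 2 ^ k * f) {s t : ℕ} (hs : 0 < s) (ht : 0 < t)
    (hf : 0 < f) (h : s ≡ t [MOD 2 ^ k]) (x : ZMod p) : x ^ (f * s) = x ^ (f * t) := by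
  by_cases hx : x = 0
  · rw [hx, zero_pow (by positivity), zero_pow (by positivity)]
  · have h1 : x ^ (p - 1) = 1 := ZMod.pow_card_sub_one_eq_one hx
    have h2 : f * s ≡ f * t [MOD (p - 1)] := by
      rw [hpf, mul_comm (2 ^ k) f]
      exact Nat.ModEq.mul_left' f h
    have h3 : orderOf x ∣ p - 1 := orderOf_dvd_of_pow_eq_one h1
    have h4 : f * s ≡ f * t [MOD (orderOf x)] := Nat.ModEq.of_dvd h3 h2
    rw [← pow_mod_orderOf x (f * s), ← pow_mod_orderOf x (f * t), h4]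

/-- absolute values -/
theorem norm_jacobi (ψ : MulChar (ZMod p) (𝓞 K)) (h1 : ψ ≠ 1) (h2 : ψ * ψ ≠ 1) (σ : K →+* ℂ) :
    (σ (jacobiSum ψ ψ : 𝓞 K)) * star (σ (jacobiSum ψ ψ : 𝓞 K)) = p := by
  let τ : 𝓞 K →+* ℂ := σ.comp (algebraMap (𝓞 K) K)
  have hτ : Function.Injective τ := by
    intro x y hxy
    exact FaithfulSMul.algebraMap_injective (𝓞 K) K (σ.injective hxy)
  let χ := ψ.ringHomComp τ
  have e1 : σ (jacobiSum ψ ψ : 𝓞 K) = jacobiSum χ χ := by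
    change τ (jacobiSum ψ ψ) = _
    rw [← jacobiSum_ringHomComp]
  have e2 : star (jacobiSum χ χ) = jacobiSum χ⁻¹ χ⁻¹ := by
    unfold jacobiSum
    rw [star_sum]
    refine Finset.sum_congr rfl fun x _ => ?_
    rw [star_mul', MulChar.star_apply', MulChar.star_apply']
  have c1 : χ ≠ 1 := (MulChar.ringHomComp_ne_one_iff hτ).2 h1
  have c2 : χ * χ ≠ 1 := by
    rw [← MulChar.ringHomComp_mul]
    exact (MulChar.ringHomComp_ne_one_iff hτ).2 h2
  rw [e1, e2, jacobiSum_mul_jacobiSum_inv _ c1 c1 c2, ZMod.card]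
  rw [ringChar.eq_zero, ZMod.ringChar_zmod_n]
  exact (Fact.out : p.Prime).ne_zero.symm

end Pool.Agent.L0h40.WT
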