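import Mathlib
import Pool.Agent.L0h40.WT.Char

/-!
The Jacobi sum `J(ψ, ψ)` for a family of explicit prime elements above `p`.
-/

namespace Pool.Agent.L0h40.WT

open Finset NumberField Polynomial

/-- A family of elements `lam u`, one above `p` for each homomorphism. -/
structure Fam (k p : ℕ) {K : Type} [Field K] [NumberField K] (ζ : 𝓞 K) (θ : ZMod p)
    (lam : (ZMod (2 ^ k))ˣ → 𝓞 K) : Prop where
  near : ∀ u, (ζ - 1) ^ 2 ∣ lam u + ζ ^ (u : ZMod (2 ^ k)).val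
  prod : ∏ u, lam u = (p : 𝓞 K)
  conj : ∀ (σ : K →+* ℂ) u, star (σ (lam u : 𝓞 K)) = σ (lam (-u) : 𝓞 K)
  red : ∀ u, ∃ R : ℤ, lam u ∣ ζ - (R : 𝓞 K) ∧
    (R : ZMod p) = θ ^ ((u⁻¹ : (ZMod (2 ^ k))ˣ) : ZMod (2 ^ k)).val

variable {k : ℕ} {K : Type} [Field K] [NumberField K] [IsCyclotomicExtension {2 ^ k} ℚ K]
variable {p : ℕ} [Fact p.Prime]

theorem val_odd (hk : 1 ≤ k) (u : (ZMod (2 ^ k))ˣ) : Odd (u : ZMod (2 ^ k)).val := by
  have h1 := ZMod.val_coe_unit_coprime u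
  exact Nat.coprime_two_right.1 ((Nat.coprime_pow_right_iff (by omega) _ 2).1 h1)

theorem mul_val_odd (hk : 1 ≤ k) {a : ℕ} (ha : Odd a) (u : (ZMod (2 ^ k))ˣ) :
    Odd ((a : ZMod (2 ^ k)) * u).val := by
  have hc : Nat.Coprime a (2 ^ k) := (Nat.coprime_pow_right_iff (by omega) a 2).2
    (Nat.coprime_two_right.2 ha)
  have h1 := val_odd hk (ZMod.unitOfCoprime a hc * u)
  simpa using h1

/-- the set of indices -/
def VV (k a : ℕ) : Finset (ZMod (2 ^ k))ˣ :=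
  univ.filter fun u => 2 ^ (k - 1) < ((a : ZMod (2 ^ k)) * (u⁻¹ : (ZMod (2 ^ k))ˣ)).val

theorem mem_VV {a : ℕ} {u : (ZMod (2 ^ k))ˣ} :
    u ∈ VV k a ↔ 2 ^ (k - 1) < ((a : ZMod (2 ^ k)) * (u⁻¹ : (ZMod (2 ^ k))ˣ)).val := by
  unfold VV
  rw [Finset.mem_filter]
  exact ⟨fun h => h.2, fun h => ⟨mem_univ _, h⟩⟩

theorem neg_mem_VV (hk : 2 ≤ k) {a : ℕ} (ha : Odd a) (u : (ZMod (2 ^ k))ˣ) :
    -u ∈ VV k a ↔ u ∉ VV k a := by
  rw [mem_VV, mem_VV]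
  have h0 : NeZero (2 ^ k) := ⟨by positivity⟩
  have h1 := mul_val_odd (by omega) ha u⁻¹
  have h2 : ((a : ZMod (2 ^ k)) * ((-u)⁻¹ : (ZMod (2 ^ k))ˣ)) =
      - ((a : ZMod (2 ^ k)) * (u⁻¹ : (ZMod (2 ^ k))ˣ)) := by
    rw [inv_neg, Units.val_neg]; ring
  rw [h2, ZMod.neg_val]
  obtain ⟨x, hx⟩ : ∃ x, x = ((a : ZMod (2 ^ k)) * (u⁻¹ : (ZMod (2 ^ k))ˣ)) := ⟨_, rfl⟩
  rw [← hx] at h1 ⊢
  have h3 : x ≠ 0 := by
    intro h
    rw [h, ZMod.val_zero] at h1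
    exact absurd h1 (by decide)
  rw [if_neg h3]
  have h4 : x.val < 2 ^ k := ZMod.val_lt x
  have h5 : 2 ^ k = 2 * 2 ^ (k - 1) := by
    rw [← pow_succ']; congr 1; omega
  have h6 : Even (2 ^ (k - 1)) := Nat.even_pow.2 ⟨even_two, by omega⟩
  have h7 : x.val ≠ 2 ^ (k - 1) := by
    intro h
    rw [h] at h1
    exact (Nat.not_even_iff_odd.2 h1) h6
  omega

theorem lam_dvd_p {ζ : 𝓞 K} {θ : ZMod p} {lam : (ZMod (2 ^ k))ˣ → 𝓞 K}
    (F : Fam k p ζ θ lam) (u) : lam u ∣ (p : 𝓞 K) := by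
  rw [← F.prod]
  exact Finset.dvd_prod_of_mem _ (mem_univ u)

theorem coprime (hk : 1 ≤ k) {ζ : 𝓞 K} {θ : ZMod p} (hθ : θ ^ 2 ^ (k - 1) = -1) (hp : 2 < p)
    {lam : (ZMod (2 ^ k))ˣ → 𝓞 K}
    (F : Fam k p ζ θ lam) {u v : (ZMod (2 ^ k))ˣ} (huv : u ≠ v) : IsCoprime (lam u) (lam v) := by
  obtain ⟨R, hR1, hR2⟩ := F.red u
  obtain ⟨S, hS1, hS2⟩ := F.red v
  have h2 : (-1 : ZMod p) ≠ 1 := by
    have : Fact (2 < p) := ⟨hp⟩
    exact ZMod.neg_one_ne_one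
  have hθp := theta_prim hk h2 hθ
  have h3 : ((R - S : ℤ) : ZMod p) ≠ 0 := by
    intro h
    push_cast at h
    rw [hR2, hS2, sub_eq_zero] at h
    have h4 := hθp.pow_inj (ZMod.val_lt _) (ZMod.val_lt _) h
    have h5 := ZMod.val_injective _ h4
    exact huv (inv_injective (Units.ext h5))
  have h4 : IsCoprime (R - S : ℤ) (p : ℤ) := by
    have h5 : ¬ (p : ℤ) ∣ (R - S : ℤ) := by
      rwa [← ZMod.intCast_zmod_eq_zero_iff_dvd]
    exact ((Nat.prime_iff_prime_int.1 (Fact.out : p.Prime)).coprime_iff_not_dvd.2 h5).symm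
  obtain ⟨x, y, hxy⟩ := h4
  obtain ⟨r, hr⟩ := hR1
  obtain ⟨s, hs⟩ := hS1
  obtain ⟨q, hq⟩ := lam_dvd_p F u
  refine ⟨-(x : 𝓞 K) * r + y * q, x * s, ?_⟩
  have hxy' : (x : 𝓞 K) * ((R : 𝓞 K) - S) + y * p = 1 := by exact_mod_cast congrArg (Int.cast : ℤ → 𝓞 K) hxy
  rw [← hxy', hq]
  linear_combination x * hr - x * hs

/-- values of a product near a product of roots of unity -/
theorem prod_near {ζ : 𝓞 K} {θ : ZMod p} {lam : (ZMod (2 ^ k))ˣ → 𝓞 K}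
    (F : Fam k p ζ θ lam) (h2 : (ζ - 1) ^ 2 ∣ (2 : 𝓞 K)) (V : Finset (ZMod (2 ^ k))ˣ) :
    (ζ - 1) ^ 2 ∣ ∏ u ∈ V, lam u - ζ ^ (∑ u ∈ V, (u : ZMod (2 ^ k)).val) := by
  classical
  induction V using Finset.induction_on with
  | empty => simp
  | insert u V hu ih =>
    rw [Finset.prod_insert hu, Finset.sum_insert hu, pow_add]
    have h3 := F.near u
    have e1 : lam u * ∏ v ∈ V, lam v - ζ ^ (u : ZMod (2 ^ k)).val *
        ζ ^ (∑ v ∈ V, (v : ZMod (2 ^ k)).val) =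
        lam u * (∏ v ∈ V, lam v - ζ ^ (∑ v ∈ V, (v : ZMod (2 ^ k)).val)) +
        (lam u + ζ ^ (u : ZMod (2 ^ k)).val) * ζ ^ (∑ v ∈ V, (v : ZMod (2 ^ k)).val) -
        2 * (ζ ^ (u : ZMod (2 ^ k)).val * ζ ^ (∑ v ∈ V, (v : ZMod (2 ^ k)).val)) := by ring
    rw [e1]
    exact dvd_sub (dvd_add (Dvd.dvd.mul_left ih _) (Dvd.dvd.mul_right h3 _))
      (Dvd.dvd.mul_right h2 _)

theorem sum_parity (hk : 1 ≤ k) (V : Finset (ZMod (2 ^ k))ˣ) :
    Even (∑ u ∈ V, (u : ZMod (2 ^ k)).val + V.card) := by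
  classical
  induction V using Finset.induction_on with
  | empty => simp
  | insert u V hu ih =>
    rw [Finset.sum_insert hu, Finset.card_insert_of_notMem hu]
    have h1 := val_odd hk u
    have h2 : (u : ZMod (2 ^ k)).val + ∑ v ∈ V, (v : ZMod (2 ^ k)).val + (V.card + 1) =
      ((u : ZMod (2 ^ k)).val + 1) + (∑ v ∈ V, (v : ZMod (2 ^ k)).val + V.card) := by ring
    rw [h2]
    exact (h1.add_one).add ih

/-- half of the family -/
theorem norm_half (hk : 2 ≤ k) {a : ℕ} (ha : Odd a) {ζ : 𝓞 K} {θ : ZMod p}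
    {lam : (ZMod (2 ^ k))ˣ → 𝓞 K} (F : Fam k p ζ θ lam) (σ : K →+* ℂ) :
    σ ((∏ u ∈ VV k a, lam u : 𝓞 K) : K) * star (σ ((∏ u ∈ VV k a, lam u : 𝓞 K) : K)) = p := by
  classical
  let τ : 𝓞 K →+* ℂ := σ.comp (algebraMap (𝓞 K) K)
  have e0 : ∀ x : 𝓞 K, σ (x : K) = τ x := fun x => rfl
  have h1 : star (τ (∏ u ∈ VV k a, lam u)) = τ (∏ u ∈ VV k a, lam (-u)) := by
    rw [map_prod, map_prod, star_prod]
    refine Finset.prod_congr rfl fun u _ => ?_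
    exact F.conj σ u
  rw [e0, h1, ← map_mul]
  have h2 : ∏ u ∈ VV k a, lam (-u) = ∏ u ∈ univ \ VV k a, lam u := by
    refine Finset.prod_bij (fun u _ => -u) ?_ ?_ ?_ ?_
    · intro u hu
      rw [Finset.mem_sdiff]
      refine ⟨mem_univ _, ?_⟩
      rw [neg_mem_VV hk ha]
      exact fun h => h hu
    · intro u _ v _ h
      exact neg_injective h
    · intro u hu
      rw [Finset.mem_sdiff] at hu
      refine ⟨-u, ?_, neg_neg u⟩
      rw [neg_mem_VV hk ha]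
      exact hu.2
    · intro u _
      rfl
  rw [h2, mul_comm, Finset.prod_sdiff (Finset.subset_univ _), F.prod]
  simp

theorem exists_phi (hk : 1 ≤ k) {ζ : 𝓞 K} (hζ : IsPrimitiveRoot ζ (2 ^ k)) {θ : ZMod p}
    (hθ : θ ^ 2 ^ (k - 1) = -1) (u : (ZMod (2 ^ k))ˣ) :
    ∃ φ : 𝓞 K →+* ZMod p, φ ζ = θ ^ (u : ZMod (2 ^ k)).val := by
  apply exists_hom hk hζ
  rw [← pow_mul, mul_comm, pow_mul, hθ]
  exact (val_odd hk u).neg_one_pow

/-- the main lemma -/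
theorem main (hk : 2 ≤ k) {ζ : 𝓞 K} (hζ : IsPrimitiveRoot ζ (2 ^ k)) {f : ℕ}
    (hpf : p - 1 = 2 ^ k * f) (hf : 0 < f) {θ : ZMod p} (hθ : θ ^ 2 ^ (k - 1) = -1)
    {lam : (ZMod (2 ^ k))ˣ → 𝓞 K} (F : Fam k p ζ θ lam)
    {a : ℕ} (ha : Odd a) (ha2 : a < 2 ^ (k - 1)) (φ : 𝓞 K →+* ZMod p) (hφ : φ ζ = θ) :
    ((2 * (a * f)).choose (a * f) : ZMod p) ^ 2 ^ (k - 1) =
      ∏ u ∈ VV k a, (θ * φ (lam u)) ^ 2 ^ (k - 1) := by
  classical
  have h0 : NeZero (2 ^ k) := ⟨by positivity⟩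
  have hkk : 2 ^ k = 2 * 2 ^ (k - 1) := by
    rw [← pow_succ']; congr 1; omega
  have hp : 2 < p := by
    have : 2 ^ 2 ≤ 2 ^ k := Nat.pow_le_pow_right (by norm_num) hk
    have h1 : 4 ≤ 2 ^ k * f := by nlinarith
    omega
  have ha0 : 0 < a := ha.pos
  obtain ⟨ψ, hψ1, hψ2⟩ := exists_char (p := p) (by omega : 1 ≤ k) hζ hpf hf hθ (2 ^ k - a)
    (by omega)
  -- the values of `φ_u ∘ ψ`
  have val : ∀ (g : 𝓞 K →+* ZMod p) (u : (ZMod (2 ^ k))ˣ), g ζ = θ ^ (u : ZMod (2 ^ k)).val →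
      ∀ x : ZMod p, g (ψ x) = x ^ (f * (2 ^ k - ((a : ZMod (2 ^ k)) * (u : ZMod (2 ^ k))).val)) := by
    intro g u hg x
    have h1 := val_odd (by omega) u
    rw [hψ2 g _ h1.pos hg x]
    have h2 : (2 ^ k - a) * f * (u : ZMod (2 ^ k)).val =
      f * ((2 ^ k - a) * (u : ZMod (2 ^ k)).val) := by ring
    rw [h2]
    have h3 := ZMod.val_lt ((a : ZMod (2 ^ k)) * (u : ZMod (2 ^ k)))
    apply pow_congr hpf _ (by omega) hf
    · rw [← ZMod.natCast_eq_natCast_iff]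
      rw [Nat.cast_mul, Nat.cast_sub (by omega), Nat.cast_sub h3.le, ZMod.natCast_zmod_val,
        ZMod.natCast_zmod_val, ZMod.natCast_self]
      ring
    · apply Nat.mul_pos (by omega) h1.pos
  have hone : ((1 : (ZMod (2 ^ k))ˣ) : ZMod (2 ^ k)).val = 1 := by
    have : Fact (1 < 2 ^ k) := ⟨Nat.one_lt_two_pow (by omega)⟩
    rw [Units.val_one, ZMod.val_one]
  have valφ : ∀ x : ZMod p, φ (ψ x) = x ^ (p - 1 - a * f) := by
    intro x
    have h1 := val φ 1 (by rw [hone, pow_one]; exact hφ) x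
    rw [h1]
    congr 1
    rw [Units.val_one, mul_one, ZMod.val_natCast, Nat.mod_eq_of_lt (by omega), hpf,
      Nat.mul_sub, mul_comm f, mul_comm f]
  -- nontriviality
  have hψψ : ψ * ψ ≠ 1 := by
    intro h
    obtain ⟨g, hg⟩ := IsCyclic.exists_generator (α := (ZMod p)ˣ)
    have ho : orderOf g = p - 1 := by
      rw [orderOf_eq_card_of_forall_mem_zpowers hg, Nat.card_eq_fintype_card, ZMod.card_units]
    have h1 : (ψ * ψ) (g : ZMod p) = 1 := by rw [h]; simp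
    have h2 := congrArg φ h1
    rw [MulChar.mul_apply, map_mul, valφ, map_one, ← pow_add] at h2
    have h3 : g ^ (p - 1 - a * f + (p - 1 - a * f)) = 1 := by
      ext
      rw [Units.val_pow_eq_pow_val, h2, Units.val_one]
    have h4 := orderOf_dvd_of_pow_eq_one h3
    rw [ho, hpf] at h4
    have h5 : 2 ^ k * f - a * f + (2 ^ k * f - a * f) = f * (2 * (2 ^ k - a)) := by
      rw [← Nat.sub_mul]; ring
    rw [h5, mul_comm (2 ^ k) f] at h4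
    have h6 := Nat.dvd_of_mul_dvd_mul_left hf h4
    rw [hkk] at h6
    have h7 := Nat.dvd_of_mul_dvd_mul_left (by norm_num) h6
    have h8 : 2 ∣ 2 ^ (k - 1) := dvd_pow_self 2 (by omega)
    have h9 := dvd_trans h8 h7
    have h10 : Even (2 * 2 ^ (k - 1)) := even_two_mul _
    have h11 : Odd (2 * 2 ^ (k - 1) - a) := Nat.Even.sub_odd (by omega) h10 ha
    exact (Nat.not_even_iff_odd.2 h11) (even_iff_two_dvd.2 h9)
  have hψ0 : ψ ≠ 1 := by
    intro h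
    apply hψψ
    rw [h, one_mul]
  -- divisibility
  set J : 𝓞 K := jacobiSum ψ ψ with hJ
  have hdvd : ∀ v ∈ VV k a, lam v ∣ J := by
    intro v hv
    rw [mem_VV] at hv
    obtain ⟨g, hg⟩ := exists_phi (by omega : 1 ≤ k) hζ hθ v⁻¹
    obtain ⟨R, hR1, hR2⟩ := F.red v
    apply dvd_of_ker hζ g (lam v) R hR1 (lam_dvd_p F v) (by rw [hR2, hg]) J
    rw [hJ, map_jacobi ψ g _ (val g v⁻¹ hg)]
    apply sum_small
    have h1 : f * (2 ^ k - ((a : ZMod (2 ^ k)) * ((v⁻¹ : (ZMod (2 ^ k))ˣ) : ZMod (2 ^ k))).val) <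
        f * 2 ^ (k - 1) := by
      apply Nat.mul_lt_mul_of_pos_left _ hf
      omega
    have h2 : 2 ^ k * f = 2 * (f * 2 ^ (k - 1)) := by rw [hkk]; ring
    rw [hpf, h2]
    omega
  have hΛ : ∏ v ∈ VV k a, lam v ∣ J := by
    apply Finset.prod_dvd_of_coprime _ hdvd
    intro u _ v _ huv
    exact coprime (by omega) hθ hp F huv
  obtain ⟨κ, hκ⟩ := hΛ
  -- `κ` is a root of unity
  have hκ1 : ∀ σ : K →+* ℂ, ‖σ (κ : K)‖ = 1 := by
    intro σ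
    have h1 := norm_jacobi ψ hψ0 hψψ σ
    have h2 := norm_half hk ha F σ
    rw [← hJ, hκ] at h1
    have h3 : (((∏ v ∈ VV k a, lam v) * κ : 𝓞 K) : K) =
      ((∏ v ∈ VV k a, lam v : 𝓞 K) : K) * (κ : K) := by simp
    rw [h3, map_mul, star_mul'] at h1
    have hp0 : (p : ℂ) ≠ 0 := by
      have := (Fact.out : p.Prime).ne_zero
      exact_mod_cast this
    have h4 : σ (κ : K) * star (σ (κ : K)) = 1 := by
      apply mul_left_cancel₀ hp0
      rw [mul_one]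
      nth_rewrite 1 [← h2]
      rw [← h1]
      ring
    have h5 : ((‖σ (κ : K)‖ ^ 2 : ℝ) : ℂ) = 1 := by
      rw [← h4, Complex.star_def, Complex.mul_conj, Complex.normSq_eq_norm_sq]
    have h6 : ‖σ (κ : K)‖ ^ 2 = 1 := by exact_mod_cast h5
    have h7 : 0 ≤ ‖σ (κ : K)‖ := norm_nonneg _
    nlinarith
  obtain ⟨i, hi⟩ := root_of_unity (by omega : 1 ≤ k) hζ κ hκ1
  -- the parity
  have h2d := two_dvd hk hζ
  have hpar : Even (∑ u ∈ VV k a, (u : ZMod (2 ^ k)).val + i) := by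
    apply even_of_dvd (by omega) hζ
    have hψn : ψ ^ (2 ^ k) = 1 := by
      ext x
      rw [MulChar.pow_apply_coe]
      obtain ⟨j, hj⟩ := hψ1 (x : ZMod p) x.ne_zero
      rw [hj, ← pow_mul, mul_comm, pow_mul, hζ.pow_eq_one]
      simp
    have h3 : 2 < 2 ^ k := by
      have : 2 ^ 2 ≤ 2 ^ k := Nat.pow_le_pow_right (by norm_num) hk
      omega
    obtain ⟨z, -, hz⟩ := exists_jacobiSum_eq_neg_one_add (n := 2 ^ k) h3 hψn hψn
      (by rw [ZMod.card, hpf]; exact dvd_mul_right _ _) hζ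
    rw [← hJ, hκ, hi] at hz
    have h4 := prod_near F h2d (VV k a)
    have e1 : ζ ^ (∑ u ∈ VV k a, (u : ZMod (2 ^ k)).val + i) - 1 =
        -((∏ u ∈ VV k a, lam u - ζ ^ (∑ u ∈ VV k a, (u : ZMod (2 ^ k)).val)) * ζ ^ i) +
        z * (ζ - 1) ^ 2 - 2 := by
      rw [pow_add]
      linear_combination hz
    rw [e1]
    exact dvd_sub (dvd_add ((Dvd.dvd.mul_right h4 _).neg_right) (dvd_mul_left _ _)) h2d
  have hpar2 : Even (i + (VV k a).card) := by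
    have h1 := sum_parity (by omega) (VV k a)
    have h2 := hpar.add h1
    rw [Nat.even_iff] at h2 ⊢
    omega
  -- reduction
  have hred : -((2 * (a * f)).choose (a * f) : ZMod p) = (∏ u ∈ VV k a, φ (lam u)) * θ ^ i := by
    have h1 := map_jacobi ψ φ _ valφ
    have h2 : 2 * (a * f) < p - 1 := by
      rw [hpf, hkk]
      have := Nat.mul_lt_mul_of_pos_right ha2 hf
      nlinarith
    rw [sum_large (a * f) (Nat.mul_pos ha0 hf) h2, ← hJ, hκ, hi] at h1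
    rw [← h1, map_mul, map_prod, map_pow, hφ]
  have hev : Even (2 ^ (k - 1)) := Nat.even_pow.2 ⟨even_two, by omega⟩
  have h1 := congrArg (fun x => x ^ 2 ^ (k - 1)) hred
  rw [hev.neg_pow, mul_pow] at h1
  rw [h1]
  have h2 : ∏ u ∈ VV k a, (θ * φ (lam u)) ^ 2 ^ (k - 1) =
      (-1) ^ (VV k a).card * (∏ u ∈ VV k a, φ (lam u)) ^ 2 ^ (k - 1) := by
    rw [← Finset.prod_pow, ← hθ, ← Finset.prod_const, ← Finset.prod_mul_distrib]
    refine Finset.prod_congr rfl fun u _ => ?_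
    rw [mul_pow]
  have h3 : (θ ^ i) ^ 2 ^ (k - 1) = (-1) ^ (VV k a).card := by
    rw [← pow_mul, mul_comm i, pow_mul, hθ]
    rcases Nat.even_or_odd i with h | h
    · have h4 : Even (VV k a).card := (Nat.even_add.1 hpar2).1 h
      rw [h.neg_one_pow, h4.neg_one_pow]
    · have h4 : Odd (VV k a).card := by
        rw [← Nat.not_even_iff_odd] at h ⊢
        exact fun h5 => h ((Nat.even_add.1 hpar2).2 h5)
      rw [h.neg_one_pow, h4.neg_one_pow]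
  rw [h2, h3, mul_comm]

end Pool.Agent.L0h40.WT
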