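import Mathlib
import Pool.Agent.L0h40.WT.Main

/-!
The explicit prime elements above a Fermat prime.
-/

namespace Pool.Agent.L0h40.WT

open Finset NumberField Polynomial

variable {k : ℕ} {K : Type} [Field K] [NumberField K] [IsCyclotomicExtension {2 ^ k} ℚ K]
variable {p : ℕ} [Fact p.Prime]

/-- conjugates of roots of unity -/
theorem star_zeta (hk : 1 ≤ k) {ζ : 𝓞 K} (hζ : IsPrimitiveRoot ζ (2 ^ k)) (σ : K →+* ℂ)
    (u : (ZMod (2 ^ k))ˣ) :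
    star (σ ((ζ ^ (u : ZMod (2 ^ k)).val : 𝓞 K) : K)) =
      σ ((ζ ^ ((-u : (ZMod (2 ^ k))ˣ) : ZMod (2 ^ k)).val : 𝓞 K) : K) := by
  have h0 : NeZero (2 ^ k) := ⟨by positivity⟩
  let τ : 𝓞 K →+* ℂ := σ.comp (algebraMap (𝓞 K) K)
  have e0 : ∀ x : 𝓞 K, σ (x : K) = τ x := fun x => rfl
  rw [e0, e0, map_pow, map_pow, star_pow]
  have h1 : (τ ζ) ^ (2 ^ k) = 1 := by rw [← map_pow, hζ.pow_eq_one, map_one]
  have h2 : ‖τ ζ‖ = 1 := Complex.norm_eq_one_of_pow_eq_one h1 (by positivity)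
  have h3 : star (τ ζ) * τ ζ = 1 := by
    rw [Complex.star_def, ← Complex.normSq_eq_conj_mul_self, Complex.normSq_eq_norm_sq, h2]
    norm_num
  have h4 : (u : ZMod (2 ^ k)).val + ((-u : (ZMod (2 ^ k))ˣ) : ZMod (2 ^ k)).val = 2 ^ k := by
    rw [Units.val_neg, ZMod.neg_val, if_neg]
    · have := ZMod.val_lt (u : ZMod (2 ^ k))
      omega
    · intro h
      have h5 := val_odd hk u
      rw [h, ZMod.val_zero] at h5
      exact absurd h5 (by decide)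
  have h5 : (τ ζ) ^ (u : ZMod (2 ^ k)).val ≠ 0 := by
    intro h
    have h6 := congrArg norm h
    rw [norm_pow, h2] at h6
    simp at h6
  apply mul_right_cancel₀ h5
  rw [← mul_pow, h3, one_pow, ← pow_add, add_comm, h4, h1]

/-- the product over the units is the cyclotomic polynomial -/
theorem prod_units (hk : 1 ≤ k) {ζ : 𝓞 K} (hζ : IsPrimitiveRoot ζ (2 ^ k)) (x : 𝓞 K) :
    ∏ u : (ZMod (2 ^ k))ˣ, (x - ζ ^ (u : ZMod (2 ^ k)).val) = x ^ 2 ^ (k - 1) + 1 := by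
  classical
  have h0 : NeZero (2 ^ k) := ⟨by positivity⟩
  have h1 : ∏ μ ∈ primitiveRoots (2 ^ k) (𝓞 K), (x - μ) = x ^ 2 ^ (k - 1) + 1 := by
    have h2 := cyclotomic_eq_prod_X_sub_primitiveRoots hζ
    have h3 := congrArg (Polynomial.eval x) h2
    rw [eval_prod] at h3
    simp only [eval_sub, eval_X, eval_C] at h3
    rw [← h3]
    obtain ⟨j, rfl⟩ : ∃ j, k = j + 1 := ⟨k - 1, by omega⟩
    rw [cyclotomic_prime_pow_eq_geom_sum Nat.prime_two]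
    simp only [Finset.sum_range_succ, Finset.range_zero, Finset.sum_empty, pow_zero, pow_one,
      zero_add, eval_add, eval_one, eval_pow, eval_X]
    rw [Nat.add_sub_cancel]; ring
  rw [← h1]
  refine Finset.prod_bij (fun u _ => ζ ^ (u : ZMod (2 ^ k)).val) ?_ ?_ ?_ ?_
  · intro u _
    rw [mem_primitiveRoots (by positivity)]
    exact hζ.pow_of_coprime _ (ZMod.val_coe_unit_coprime u)
  · intro u _ v _ h
    have h4 := hζ.pow_inj (ZMod.val_lt _) (ZMod.val_lt _) h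
    exact Units.ext (ZMod.val_injective _ h4)
  · intro μ hμ
    rw [mem_primitiveRoots (by positivity)] at hμ
    obtain ⟨i, hi, hic, rfl⟩ := hζ.isPrimitiveRoot_iff.1 hμ
    refine ⟨ZMod.unitOfCoprime i hic, mem_univ _, ?_⟩
    rw [ZMod.coe_unitOfCoprime, ZMod.val_natCast, Nat.mod_eq_of_lt hi]
  · intro u _
    rfl

/-- reduction of exponents -/
theorem zeta_inv {ζ : 𝓞 K} (hζ : IsPrimitiveRoot ζ (2 ^ k)) (hk : 1 ≤ k)
    (u : (ZMod (2 ^ k))ˣ) :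
    (ζ ^ (u : ZMod (2 ^ k)).val) ^ ((u⁻¹ : (ZMod (2 ^ k))ˣ) : ZMod (2 ^ k)).val = ζ := by
  have h0 : NeZero (2 ^ k) := ⟨by positivity⟩
  have h1 : ((u : ZMod (2 ^ k)).val * ((u⁻¹ : (ZMod (2 ^ k))ˣ) : ZMod (2 ^ k)).val) % 2 ^ k = 1 := by
    rw [← ZMod.val_mul, Units.mul_inv]
    have : Fact (1 < 2 ^ k) := ⟨Nat.one_lt_two_pow (by omega)⟩
    exact ZMod.val_one _
  rw [← pow_mul, ← Nat.div_add_mod ((u : ZMod (2 ^ k)).val *
    ((u⁻¹ : (ZMod (2 ^ k))ˣ) : ZMod (2 ^ k)).val) (2 ^ k), h1, pow_add, pow_mul, hζ.pow_eq_one,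
    one_pow, one_mul, pow_one]

/-- levels up to `m + 1` -/
theorem famA {m : ℕ} (hk : 2 ≤ k) (hkm : k ≤ m + 1) (hp : p = 2 ^ 2 ^ m + 1)
    {ζ : 𝓞 K} (hζ : IsPrimitiveRoot ζ (2 ^ k)) :
    Fam k p ζ ((2 : ZMod p) ^ 2 ^ (m + 1 - k))
      (fun u => (2 : 𝓞 K) ^ 2 ^ (m + 1 - k) - ζ ^ (u : ZMod (2 ^ k)).val) := by
  have h0 : NeZero (2 ^ k) := ⟨by positivity⟩
  have hpow : 2 ^ (m + 1 - k) * 2 ^ (k - 1) = 2 ^ m := by
    rw [← pow_add]; congr 1; omega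
  refine ⟨?_, ?_, ?_, ?_⟩
  · intro u
    rw [sub_add_cancel]
    exact dvd_trans (two_dvd hk hζ) (dvd_pow_self _ (by positivity))
  · rw [prod_units (by omega) hζ, ← pow_mul, hpow, hp]
    push_cast
    ring
  · intro σ u
    have h1 := star_zeta (by omega) hζ σ u
    let τ : 𝓞 K →+* ℂ := σ.comp (algebraMap (𝓞 K) K)
    have e0 : ∀ x : 𝓞 K, σ (x : K) = τ x := fun x => rfl
    rw [e0, e0] at h1 ⊢
    rw [map_sub, map_sub, star_sub, h1, map_pow, map_ofNat, star_pow]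
    congr 2
    simp
  · intro u
    refine ⟨(2 ^ 2 ^ (m + 1 - k)) ^ ((u⁻¹ : (ZMod (2 ^ k))ˣ) : ZMod (2 ^ k)).val, ?_, ?_⟩
    · have h1 := zeta_inv hζ (by omega) u
      have h2 := sub_dvd_pow_sub_pow ((2 : 𝓞 K) ^ 2 ^ (m + 1 - k)) (ζ ^ (u : ZMod (2 ^ k)).val)
        ((u⁻¹ : (ZMod (2 ^ k))ˣ) : ZMod (2 ^ k)).val
      rw [h1] at h2
      rw [dvd_sub_comm]
      push_cast
      exact h2
    · push_cast
      rfl

end Pool.Agent.L0h40.WT
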