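import Mathlib
import Pool.Agent.L0h40.WT.InstA

/-!
The explicit prime elements above a Fermat prime, last level.
-/

namespace Pool.Agent.L0h40.WT

open Finset NumberField Polynomial

variable {k : ℕ} {K : Type} [Field K] [NumberField K] [IsCyclotomicExtension {2 ^ k} ℚ K]
variable {p : ℕ} [Fact p.Prime]

/-- the product of a self-conjugate family -/
theorem half_prod (hk : 2 ≤ k) {lam : (ZMod (2 ^ k))ˣ → 𝓞 K} (σ : K →+* ℂ)
    (hc : ∀ u, star (σ (lam u : 𝓞 K)) = σ (lam (-u) : 𝓞 K)) :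
    σ ((∏ u ∈ VV k 1, lam u : 𝓞 K) : K) * star (σ ((∏ u ∈ VV k 1, lam u : 𝓞 K) : K)) =
      σ ((∏ u, lam u : 𝓞 K) : K) := by
  classical
  let τ : 𝓞 K →+* ℂ := σ.comp (algebraMap (𝓞 K) K)
  have e0 : ∀ x : 𝓞 K, σ (x : K) = τ x := fun x => rfl
  have h1 : star (τ (∏ u ∈ VV k 1, lam u)) = τ (∏ u ∈ VV k 1, lam (-u)) := by
    rw [map_prod, map_prod, star_prod]
    refine Finset.prod_congr rfl fun u _ => ?_
    exact hc u
  rw [e0, e0, h1, ← map_mul]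
  have h2 : ∏ u ∈ VV k 1, lam (-u) = ∏ u ∈ univ \ VV k 1, lam u := by
    refine Finset.prod_bij (fun u _ => -u) ?_ ?_ ?_ ?_
    · intro u hu
      rw [Finset.mem_sdiff]
      refine ⟨mem_univ _, ?_⟩
      rw [neg_mem_VV hk odd_one]
      exact fun h => h hu
    · intro u _ v _ h
      exact neg_injective h
    · intro u hu
      rw [Finset.mem_sdiff] at hu
      refine ⟨-u, ?_, neg_neg u⟩
      rw [neg_mem_VV hk odd_one]
      exact hu.2
    · intro u _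
      rfl
  rw [h2, mul_comm, Finset.prod_sdiff (Finset.subset_univ _)]

/-- the sign -/
theorem pos_of_half (hk : 2 ≤ k) {lam : (ZMod (2 ^ k))ˣ → 𝓞 K}
    (hc : ∀ (σ : K →+* ℂ) u, star (σ (lam u : 𝓞 K)) = σ (lam (-u) : 𝓞 K)) {q : ℕ} (hq : 0 < q)
    (h : (∏ u, lam u) ^ 2 = (q : 𝓞 K) ^ 2) : ∏ u, lam u = (q : 𝓞 K) := by
  rcases sq_eq_sq_iff_eq_or_eq_neg.1 h with h | h
  · exact h
  · exfalso
    obtain ⟨σ⟩ : Nonempty (K →+* ℂ) := inferInstance
    have h1 := half_prod hk σ (hc σ)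
    rw [h, Complex.star_def, Complex.mul_conj] at h1
    simp only [map_neg, map_natCast] at h1
    have h2 : Complex.normSq (σ ((∏ u ∈ VV k 1, lam u : 𝓞 K) : K)) = -(q : ℝ) := by
      exact_mod_cast h1
    have h3 := Complex.normSq_nonneg (σ ((∏ u ∈ VV k 1, lam u : 𝓞 K) : K))
    have h4 : (0 : ℝ) < q := by exact_mod_cast hq
    linarith

/-- the quadratic character on units -/
def ch (k : ℕ) (u : (ZMod (2 ^ k))ˣ) : ℤ := ZMod.χ₈ ((u : ZMod (2 ^ k)).val : ZMod 8)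

theorem ch_sq (hk : 1 ≤ k) (u : (ZMod (2 ^ k))ˣ) : ch k u ^ 2 = 1 := by
  unfold ch
  have h1 := val_odd hk u
  generalize (u : ZMod (2 ^ k)).val = n at h1
  have h2 : ZMod.χ₈ ((n : ℕ) : ZMod 8) = ZMod.χ₈ (((n % 8 : ℕ)) : ZMod 8) := by
    rw [ZMod.natCast_mod]
  rw [h2]
  have h3 : n % 8 < 8 := Nat.mod_lt _ (by norm_num)
  have h4 : n % 8 % 2 = 1 := by
    have := Nat.odd_iff.1 h1
    omega
  generalize n % 8 = r at h3 h4
  interval_cases r <;> first | omega | decide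

theorem ch_neg (hk : 3 ≤ k) (u : (ZMod (2 ^ k))ˣ) : ch k (-u) = ch k u := by
  unfold ch
  have h0 : NeZero (2 ^ k) := ⟨by positivity⟩
  have h1 := val_odd (by omega) u
  have h4 : (u : ZMod (2 ^ k)).val + ((-u : (ZMod (2 ^ k))ˣ) : ZMod (2 ^ k)).val = 2 ^ k := by
    rw [Units.val_neg, ZMod.neg_val, if_neg]
    · have := ZMod.val_lt (u : ZMod (2 ^ k))
      omega
    · intro h
      rw [h, ZMod.val_zero] at h1
      exact absurd h1 (by decide)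
  have h5 : 8 ∣ 2 ^ k := by
    have := Nat.pow_dvd_pow 2 hk
    simpa using this
  have h6 : (((-u : (ZMod (2 ^ k))ˣ) : ZMod (2 ^ k)).val : ZMod 8) =
      -((u : ZMod (2 ^ k)).val : ZMod 8) := by
    have h7 := congrArg (Nat.cast : ℕ → ZMod 8) h4
    rw [Nat.cast_add, (ZMod.natCast_eq_zero_iff _ _).2 h5] at h7
    linear_combination h7
  rw [h6]
  generalize ((u : ZMod (2 ^ k)).val : ZMod 8) = x
  revert x
  decide

theorem ch_inv (hk : 3 ≤ k) (u : (ZMod (2 ^ k))ˣ) : ch k u⁻¹ = ch k u := by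
  have h0 : NeZero (2 ^ k) := ⟨by positivity⟩
  have h1 : ((u : ZMod (2 ^ k)).val * ((u⁻¹ : (ZMod (2 ^ k))ˣ) : ZMod (2 ^ k)).val) % 2 ^ k = 1 := by
    rw [← ZMod.val_mul, Units.mul_inv]
    have : Fact (1 < 2 ^ k) := ⟨Nat.one_lt_two_pow (by omega)⟩
    exact ZMod.val_one _
  have h5 : 8 ∣ 2 ^ k := by
    have := Nat.pow_dvd_pow 2 hk
    simpa using this
  have h2 : (((u : ZMod (2 ^ k)).val * ((u⁻¹ : (ZMod (2 ^ k))ˣ) : ZMod (2 ^ k)).val : ℕ) : ZMod 8) = 1 := by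
    have h3 : (((u : ZMod (2 ^ k)).val * ((u⁻¹ : (ZMod (2 ^ k))ˣ) : ZMod (2 ^ k)).val) % 2 ^ k) % 8 =
      ((u : ZMod (2 ^ k)).val * ((u⁻¹ : (ZMod (2 ^ k))ˣ) : ZMod (2 ^ k)).val) % 8 :=
      Nat.mod_mod_of_dvd _ h5
    rw [h1] at h3
    have h4 : ((((u : ZMod (2 ^ k)).val * ((u⁻¹ : (ZMod (2 ^ k))ˣ) : ZMod (2 ^ k)).val : ℕ)) : ZMod 8) =
      ((1 : ℕ) : ZMod 8) := by
      rw [ZMod.natCast_eq_natCast_iff]
      exact h3.symm
    rw [h4]; simp
  have h3 : ch k u * ch k u⁻¹ = 1 := by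
    unfold ch
    rw [← map_mul, ← Nat.cast_mul, h2, map_one]
  have h4 := ch_sq (by omega) u
  have h6 : ch k u ≠ 0 := by
    intro h; rw [h] at h4; norm_num at h4
  apply mul_left_cancel₀ h6
  rw [h3, ← h4]; ring

/-- powers of an eighth root of unity -/
theorem eighth {R : Type} [CommRing R] {w : R} (hw : w ^ 4 = -1) {n : ℕ} (hn : Odd n) :
    w ^ n - (w ^ n) ^ 3 = (ZMod.χ₈ (n : ZMod 8) : ℤ) * (w - w ^ 3) := by
  have h2 : ZMod.χ₈ ((n : ℕ) : ZMod 8) = ZMod.χ₈ (((n % 8 : ℕ)) : ZMod 8) := by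
    rw [ZMod.natCast_mod]
  have h8 : w ^ 8 = 1 := by
    have : w ^ 8 = (w ^ 4) ^ 2 := by ring
    rw [this, hw]; ring
  have hn2 : w ^ n = w ^ (n % 8) := by
    conv_lhs => rw [← Nat.div_add_mod n 8, pow_add, pow_mul, h8, one_pow, one_mul]
  rw [h2, hn2]
  have h3 : n % 8 < 8 := Nat.mod_lt _ (by norm_num)
  have h4 : n % 8 % 2 = 1 := by
    have := Nat.odd_iff.1 hn
    omega
  generalize n % 8 = r at h3 h4
  interval_cases r
  · omega
  · have : ZMod.χ₈ ((1 : ℕ) : ZMod 8) = 1 := by decide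
    rw [this]; push_cast; ring
  · omega
  · have : ZMod.χ₈ ((3 : ℕ) : ZMod 8) = -1 := by decide
    rw [this]; push_cast
    linear_combination (-w ^ 5 + w) * hw
  · omega
  · have : ZMod.χ₈ ((5 : ℕ) : ZMod 8) = -1 := by decide
    rw [this]; push_cast
    linear_combination (w - w ^ 11 + w ^ 7 - w ^ 3) * hw
  · omega
  · have : ZMod.χ₈ ((7 : ℕ) : ZMod 8) = 1 := by decide
    rw [this]; push_cast
    linear_combination (w ^ 3 - w ^ 17 + w ^ 13 - w ^ 9 + w ^ 5 - w) * hw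

end Pool.Agent.L0h40.WT
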