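import Mathlib
import Pool.Agent.L0h40.WT.InstB

/-!
The explicit prime elements above a Fermat prime, last level.
-/

namespace Pool.Agent.L0h40.WT

open Finset NumberField Polynomial

variable {k : ℕ} {K : Type} [Field K] [NumberField K] [IsCyclotomicExtension {2 ^ k} ℚ K]
variable {p : ℕ} [Fact p.Prime]

theorem zeta_half (hk : 1 ≤ k) {ζ : 𝓞 K} (hζ : IsPrimitiveRoot ζ (2 ^ k)) :
    ζ ^ 2 ^ (k - 1) = -1 := by
  have h2 : (ζ ^ 2 ^ (k - 1)) ^ 2 = 1 := by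
    rw [← pow_mul, ← pow_succ]
    have : k - 1 + 1 = k := by omega
    rw [this, hζ.pow_eq_one]
  have h3 : ζ ^ 2 ^ (k - 1) ≠ 1 := by
    intro h
    have := (hζ.pow_eq_one_iff_dvd _).1 h
    have h5 := Nat.le_of_dvd (by positivity) this
    have h6 : 2 ^ (k - 1) < 2 ^ k := Nat.pow_lt_pow_right (by norm_num) (by omega)
    omega
  rcases sq_eq_one_iff.1 h2 with h | h
  · exact absurd h h3
  · exact h

/-- the unit `1 + 2 ^ (k - 1)` -/
noncomputable def hu (k : ℕ) (hk : 2 ≤ k) : (ZMod (2 ^ k))ˣ :=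
  ZMod.unitOfCoprime (1 + 2 ^ (k - 1)) ((Nat.coprime_pow_right_iff (by omega) _ 2).2
    (Nat.coprime_two_right.2 (by
      have h6 : Even (2 ^ (k - 1)) := Nat.even_pow.2 ⟨even_two, by omega⟩
      rw [add_comm]
      exact h6.add_one)))

theorem hu_mod (hk : 2 ≤ k) (u : (ZMod (2 ^ k))ˣ) :
    ((u * hu k hk : (ZMod (2 ^ k))ˣ) : ZMod (2 ^ k)).val =
      ((u : ZMod (2 ^ k)).val * (1 + 2 ^ (k - 1))) % 2 ^ k := by
  have h0 : NeZero (2 ^ k) := ⟨by positivity⟩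
  rw [Units.val_mul, ZMod.val_mul]
  unfold hu
  rw [ZMod.coe_unitOfCoprime, ZMod.val_natCast, Nat.mul_mod_mod]

theorem zeta_hu (hk : 2 ≤ k) {ζ : 𝓞 K} (hζ : IsPrimitiveRoot ζ (2 ^ k)) (u : (ZMod (2 ^ k))ˣ) :
    ζ ^ ((u * hu k hk : (ZMod (2 ^ k))ˣ) : ZMod (2 ^ k)).val = -ζ ^ (u : ZMod (2 ^ k)).val := by
  rw [hu_mod, pow_mod_eq hζ]
  rw [mul_add, mul_one, pow_add, mul_comm _ (2 ^ (k - 1)), pow_mul, zeta_half (by omega) hζ,
    (val_odd (by omega) u).neg_one_pow]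
  ring
where
  pow_mod_eq {ζ : 𝓞 K} (hζ : IsPrimitiveRoot ζ (2 ^ k)) {n : ℕ} : ζ ^ (n % 2 ^ k) = ζ ^ n := by
    conv_rhs => rw [← Nat.div_add_mod n (2 ^ k), pow_add, pow_mul, hζ.pow_eq_one, one_pow, one_mul]

theorem ch_hu (hk : 4 ≤ k) (u : (ZMod (2 ^ k))ˣ) :
    ch k (u * hu k (by omega)) = ch k u := by
  unfold ch
  rw [hu_mod]
  congr 1
  rw [ZMod.natCast_eq_natCast_iff]
  have h1 : 8 ∣ 2 ^ k := by
    have := Nat.pow_dvd_pow 2 (show 3 ≤ k by omega)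
    simpa using this
  have h2 : 8 ∣ 2 ^ (k - 1) := by
    have := Nat.pow_dvd_pow 2 (show 3 ≤ k - 1 by omega)
    simpa using this
  unfold Nat.ModEq
  rw [Nat.mod_mod_of_dvd _ h1, mul_add, mul_one]
  obtain ⟨c, hc⟩ := h2
  rw [hc]
  have : (u : ZMod (2 ^ k)).val * (8 * c) = 8 * ((u : ZMod (2 ^ k)).val * c) := by ring
  rw [this, Nat.add_mul_mod_self_left]

/-- the last level -/
theorem famB {m : ℕ} (hm : 2 ≤ m) (hkm : k = m + 2) (hp : p = 2 ^ 2 ^ m + 1)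
    {ζ : 𝓞 K} (hζ : IsPrimitiveRoot ζ (2 ^ k)) :
    Fam k p ζ ((2 : ZMod p) ^ 2 ^ (m - 2) - ((2 : ZMod p) ^ 2 ^ (m - 2)) ^ 3)
      (fun u => (ch k u : 𝓞 K) * (ζ ^ 2 ^ (m - 1) - (ζ ^ 2 ^ (m - 1)) ^ 3) -
        ζ ^ (u : ZMod (2 ^ k)).val) := by
  have h0 : NeZero (2 ^ k) := ⟨by positivity⟩
  have hk : 2 ≤ k := by omega
  have hz4 : (ζ ^ 2 ^ (m - 1)) ^ 4 = -1 := by
    rw [← pow_mul]
    have : 2 ^ (m - 1) * 4 = 2 ^ (k - 1) := by
      have : (4 : ℕ) = 2 ^ 2 := by norm_num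
      rw [this, ← pow_add]; congr 1; omega
    rw [this, zeta_half (by omega) hζ]
  obtain ⟨s, hs⟩ : ∃ s, s = ζ ^ 2 ^ (m - 1) - (ζ ^ 2 ^ (m - 1)) ^ 3 := ⟨_, rfl⟩
  have hs2 : s ^ 2 = 2 := by
    rw [hs]
    linear_combination ((ζ ^ 2 ^ (m - 1)) ^ 2 - 2) * hz4
  have hconj : ∀ (σ : K →+* ℂ) (u : (ZMod (2 ^ k))ˣ),
      star (σ (((ch k u : 𝓞 K) * s - ζ ^ (u : ZMod (2 ^ k)).val : 𝓞 K) : K)) =
      σ (((ch k (-u) : 𝓞 K) * s - ζ ^ ((-u : (ZMod (2 ^ k))ˣ) : ZMod (2 ^ k)).val : 𝓞 K) : K) := by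
    intro σ u
    have h1 := star_zeta (by omega) hζ σ u
    let τ : 𝓞 K →+* ℂ := σ.comp (algebraMap (𝓞 K) K)
    have e0 : ∀ x : 𝓞 K, σ (x : K) = τ x := fun x => rfl
    rw [e0, e0] at h1 ⊢
    have h2 : star (τ s) = τ s := by
      have h3 : (τ (ζ ^ 2 ^ (m - 1))) ^ 4 = -1 := by rw [← map_pow, hz4]; simp
      obtain ⟨z, hz⟩ : ∃ z, z = τ (ζ ^ 2 ^ (m - 1)) := ⟨_, rfl⟩
      rw [← hz] at h3
      have h8 : z ^ 8 = 1 := by
        have : z ^ 8 = (z ^ 4) ^ 2 := by ring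
        rw [this, h3]; ring
      have hn : ‖z‖ = 1 := Complex.norm_eq_one_of_pow_eq_one h8 (by norm_num)
      have h5 : star z * z = 1 := by
        rw [Complex.star_def, ← Complex.normSq_eq_conj_mul_self, Complex.normSq_eq_norm_sq, hn]
        norm_num
      have h6 : star z = - z ^ 3 := by
        have hz0 : z ≠ 0 := by
          intro h; rw [h] at hn; simp at hn
        apply mul_right_cancel₀ hz0
        rw [h5]
        linear_combination h3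
      have h7 : τ s = z - z ^ 3 := by
        rw [hs, map_sub, map_pow τ _ 3, ← hz]
      rw [h7, star_sub, star_pow, h6]
      linear_combination (z ^ 5 - z) * h3
    rw [map_sub, map_sub, star_sub, h1, map_mul, map_mul, star_mul', h2, map_intCast,
      map_intCast, ch_neg (by omega)]
    congr 2
    simp
  rw [← hs]
  refine ⟨?_, ?_, ?_, ?_⟩
  · intro u
    rw [sub_add_cancel]
    have h1 : (ζ - 1) ^ 2 ∣ ζ ^ 2 - 1 := by
      have : ζ ^ 2 - 1 = (ζ - 1) ^ 2 + 2 * (ζ - 1) := by ring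
      rw [this]
      exact dvd_add dvd_rfl (Dvd.dvd.mul_right (two_dvd hk hζ) _)
    have h2 : ζ ^ 2 - 1 ∣ (ζ ^ 2 ^ (m - 1)) ^ 2 - 1 := by
      rw [← pow_mul, mul_comm, pow_mul]
      exact sub_one_dvd_pow_sub_one _ _
    have h3 : (ch k u : 𝓞 K) * s = ((ζ ^ 2 ^ (m - 1)) ^ 2 - 1) * (-(ch k u : 𝓞 K) * ζ ^ 2 ^ (m - 1)) := by
      rw [hs]; ring
    rw [h3]
    exact Dvd.dvd.mul_right (dvd_trans h1 h2) _
  · apply pos_of_half hk hconj (by rw [hp]; positivity)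
    have h1 : ∏ u : (ZMod (2 ^ k))ˣ, ((ch k u : 𝓞 K) * s - ζ ^ (u : ZMod (2 ^ k)).val) =
        ∏ u : (ZMod (2 ^ k))ˣ, ((ch k u : 𝓞 K) * s + ζ ^ (u : ZMod (2 ^ k)).val) := by
      rw [← Equiv.prod_comp (Equiv.mulRight (hu k hk))]
      refine Finset.prod_congr rfl fun u _ => ?_
      rw [Equiv.coe_mulRight, zeta_hu hk hζ, ch_hu (by omega)]
      ring
    have h2 : ∏ u : (ZMod (2 ^ k))ˣ, (s - ζ ^ (u : ZMod (2 ^ k)).val) =
        ∏ u : (ZMod (2 ^ k))ˣ, (s + ζ ^ (u : ZMod (2 ^ k)).val) := by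
      rw [← Equiv.prod_comp (Equiv.mulRight (hu k hk))]
      refine Finset.prod_congr rfl fun u _ => ?_
      rw [Equiv.coe_mulRight, zeta_hu hk hζ]
      ring
    have h3 := prod_units (by omega : 1 ≤ k) hζ s
    have h4 : s ^ 2 ^ (k - 1) + 1 = (p : 𝓞 K) := by
      have : 2 ^ (k - 1) = 2 * 2 ^ m := by
        rw [← pow_succ']; congr 1; omega
      rw [this, pow_mul, hs2, hp]
      push_cast
      ring
    rw [← h4, ← h3, pow_two, pow_two]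
    nth_rewrite 2 [h1]
    nth_rewrite 2 [h2]
    rw [← Finset.prod_mul_distrib, ← Finset.prod_mul_distrib]
    refine Finset.prod_congr rfl fun u _ => ?_
    have h5 : (ch k u : 𝓞 K) ^ 2 = 1 := by
      have := ch_sq (by omega) u
      exact_mod_cast congrArg (Int.cast : ℤ → 𝓞 K) this
    linear_combination s ^ 2 * h5
  · exact hconj
  · intro u
    obtain ⟨v, hv⟩ : ∃ v, v = ((u⁻¹ : (ZMod (2 ^ k))ˣ) : ZMod (2 ^ k)).val := ⟨_, rfl⟩
    have hvo : Odd v := by rw [hv]; exact val_odd (by omega) _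
    have hv2 : v = 2 * ((v - 1) / 2) + 1 := by
      obtain ⟨c, hc⟩ := hvo
      omega
    have hmm : 2 ^ (m - 1) = 2 * 2 ^ (m - 2) := by
      rw [← pow_succ']; congr 1; omega
    refine ⟨ch k u * 2 ^ ((v - 1) / 2) * ((2 ^ 2 ^ (m - 2)) ^ v - ((2 ^ 2 ^ (m - 2)) ^ v) ^ 3),
      ?_, ?_⟩
    · obtain ⟨l, hl⟩ : ∃ l, l = (ch k u : 𝓞 K) * s - ζ ^ (u : ZMod (2 ^ k)).val := ⟨_, rfl⟩
      rw [← hl]
      have h5 : (ch k u : 𝓞 K) ^ 2 = 1 := by
        have := ch_sq (by omega) u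
        exact_mod_cast congrArg (Int.cast : ℤ → 𝓞 K) this
      have h1 := zeta_inv hζ (by omega) u
      rw [← hv] at h1
      -- ζ ≡ (ch s)^v
      have h2 : l ∣ ζ - ((ch k u : 𝓞 K) * s) ^ v := by
        have h3 := sub_dvd_pow_sub_pow ((ch k u : 𝓞 K) * s) (ζ ^ (u : ZMod (2 ^ k)).val) v
        rw [h1, ← hl] at h3
        rwa [dvd_sub_comm]
      have h3 : ((ch k u : 𝓞 K) * s) ^ v = (ch k u : 𝓞 K) * 2 ^ ((v - 1) / 2) * s := by
        rw [hv2, pow_succ, pow_mul]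
        have : ((ch k u : 𝓞 K) * s) ^ 2 = 2 := by rw [mul_pow, h5, hs2, one_mul]
        rw [this, ← hv2]; ring
      have h4 : l ∣ ζ ^ 2 ^ (m - 1) - (2 ^ 2 ^ (m - 2)) ^ v := by
        have h6 := dvd_trans h2 (sub_dvd_pow_sub_pow ζ (((ch k u : 𝓞 K) * s) ^ v) (2 ^ (m - 1)))
        have h7 : (((ch k u : 𝓞 K) * s) ^ v) ^ 2 ^ (m - 1) = (2 ^ 2 ^ (m - 2)) ^ v := by
          rw [← pow_mul, hmm]
          have : v * (2 * 2 ^ (m - 2)) = 2 * (2 ^ (m - 2) * v) := by ring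
          rw [this, pow_mul, mul_pow, h5, hs2, one_mul, pow_mul]
        rwa [h7] at h6
      have h6 := dvd_trans h4 (sub_dvd_pow_sub_pow (ζ ^ 2 ^ (m - 1)) ((2 ^ 2 ^ (m - 2)) ^ v) 3)
      have h7 : l ∣ s - ((2 ^ 2 ^ (m - 2)) ^ v - ((2 ^ 2 ^ (m - 2)) ^ v) ^ 3) := by
        have := dvd_sub h4 h6
        rw [hs]
        convert this using 1
        ring
      have h8 := dvd_add h2 (Dvd.dvd.mul_left h7 ((ch k u : 𝓞 K) * 2 ^ ((v - 1) / 2)))
      rw [h3] at h8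
      convert h8 using 1
      push_cast
      ring
    · rw [← hv]
      have h3 : (2 : ZMod p) ^ 2 ^ m = -1 := by
        have h4 : ((p : ℕ) : ZMod p) = 0 := ZMod.natCast_self p
        have h6 : ((2 ^ 2 ^ m + 1 : ℕ) : ZMod p) = 0 := hp ▸ h4
        have h5 : (2 : ZMod p) ^ 2 ^ m + 1 = 0 := by
          rw [← h6]
          push_cast
          ring
        linear_combination h5
      have hw4 : ((2 : ZMod p) ^ 2 ^ (m - 2)) ^ 4 = -1 := by
        rw [← pow_mul]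
        have : 2 ^ (m - 2) * 4 = 2 ^ m := by
          have : (4 : ℕ) = 2 ^ 2 := by norm_num
          rw [this, ← pow_add]; congr 1; omega
        rw [this, h3]
      have h9 := eighth hw4 hvo
      have h10 : ZMod.χ₈ (v : ZMod 8) = ch k u := by
        rw [← ch_inv (by omega) u]
        unfold ch
        rw [hv]
      rw [h10] at h9
      obtain ⟨w, hw⟩ : ∃ w, w = (2 : ZMod p) ^ 2 ^ (m - 2) := ⟨_, rfl⟩
      rw [← hw] at hw4 h9 ⊢
      have h5 : (ch k u : ZMod p) ^ 2 = 1 := by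
        have := ch_sq (by omega) u
        exact_mod_cast congrArg (Int.cast : ℤ → ZMod p) this
      have h11 : (w - w ^ 3) ^ 2 = 2 := by linear_combination (w ^ 2 - 2) * hw4
      have h12 : (w - w ^ 3) ^ v = 2 ^ ((v - 1) / 2) * (w - w ^ 3) := by
        conv_lhs => rw [hv2, pow_succ, pow_mul, h11]
      rw [h12]
      push_cast
      rw [← hw, h9]
      linear_combination (2 ^ ((v - 1) / 2) * (w - w ^ 3)) * h5

end Pool.Agent.L0h40.WT
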