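import Mathlib
import Pool.Agent.L0h40.WT.InstC

/-!
The central binomial coefficients modulo a Fermat prime.
-/

namespace Pool.Agent.L0h40.WT

open Finset NumberField Polynomial

/-- the roots `(χ₈(2j+1) 2^j)^(2^(m+2-k))` -/
def tt (m k j : ℕ) : ℤ := (ZMod.χ₈ ((2 * j + 1 : ℕ) : ZMod 8) * 2 ^ j) ^ 2 ^ (m + 2 - k)

/-- the exponents -/
def ee (k a j : ℕ) : ℕ := ((a : ZMod (2 ^ k)) * ((2 * j + 1 : ℕ) : ZMod (2 ^ k))⁻¹).val

theorem two_pow_eq {m p : ℕ} (hp : p = 2 ^ 2 ^ m + 1) : (2 : ZMod p) ^ 2 ^ m = -1 := by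
  have h4 : ((p : ℕ) : ZMod p) = 0 := ZMod.natCast_self p
  have h6 : ((2 ^ 2 ^ m + 1 : ℕ) : ZMod p) = 0 := hp ▸ h4
  have h5 : (2 : ZMod p) ^ 2 ^ m + 1 = 0 := by
    rw [← h6]
    push_cast
    ring
  linear_combination h5

theorem two_pow_ge {m : ℕ} (hm : 2 ≤ m) : m + 2 ≤ 2 ^ m := by
  obtain ⟨c, rfl⟩ : ∃ c, m = c + 2 := ⟨m - 2, by omega⟩
  clear hm
  induction c with
  | zero => norm_num
  | succ c ih =>
    have : 2 ^ (c + 1 + 2) = 2 * 2 ^ (c + 2) := by rw [← pow_succ']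
    rw [this]; omega

theorem exists_field (k : ℕ) : ∃ (K : Type) (_ : Field K) (_ : NumberField K),
    IsCyclotomicExtension {2 ^ k} ℚ K := by
  refine ⟨CyclotomicField (2 ^ k) ℚ, inferInstance, inferInstance, ?_⟩
  have h := CyclotomicField.isCyclotomicExtension (2 ^ k) ℚ
  have e : (DivisionRing.toRatAlgebra : Algebra ℚ (CyclotomicField (2 ^ k) ℚ)) =
    CyclotomicField.algebra (2 ^ k) ℚ := Subsingleton.elim _ _
  rw [e]
  exact h

/-- reindexing -/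
theorem reindex {k a : ℕ} (hk : 1 ≤ k) {M : Type} [CommMonoid M] (G : ℕ → M) :
    ∏ u ∈ VV k a, G ((u : ZMod (2 ^ k)).val) =
      ∏ j ∈ (range (2 ^ (k - 1))).filter (fun j => 2 ^ (k - 1) < ee k a j), G (2 * j + 1) := by
  classical
  have h0 : NeZero (2 ^ k) := ⟨by positivity⟩
  have hkk : 2 ^ k = 2 * 2 ^ (k - 1) := by
    rw [← pow_succ']; congr 1; omega
  have key : ∀ u : (ZMod (2 ^ k))ˣ, 2 * (((u : ZMod (2 ^ k)).val - 1) / 2) + 1 =
      (u : ZMod (2 ^ k)).val := by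
    intro u
    obtain ⟨c, hc⟩ := val_odd hk u
    omega
  have key2 : ∀ u : (ZMod (2 ^ k))ˣ, ee k a (((u : ZMod (2 ^ k)).val - 1) / 2) =
      ((a : ZMod (2 ^ k)) * (u⁻¹ : (ZMod (2 ^ k))ˣ)).val := by
    intro u
    unfold ee
    rw [key, ZMod.natCast_zmod_val, ZMod.inv_coe_unit]
  refine Finset.prod_bij (fun u _ => ((u : ZMod (2 ^ k)).val - 1) / 2) ?_ ?_ ?_ ?_
  · intro u hu
    rw [mem_VV] at hu
    rw [Finset.mem_filter, Finset.mem_range, key2]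
    refine ⟨?_, hu⟩
    have := ZMod.val_lt (u : ZMod (2 ^ k))
    omega
  · intro u _ v _ h
    have h1 := key u
    have h2 := key v
    have h3 : (u : ZMod (2 ^ k)).val = (v : ZMod (2 ^ k)).val := by
      rw [← h1, ← h2]
      omega
    exact Units.ext (ZMod.val_injective _ h3)
  · intro j hj
    rw [Finset.mem_filter, Finset.mem_range] at hj
    have hc : Nat.Coprime (2 * j + 1) (2 ^ k) := (Nat.coprime_pow_right_iff (by omega) _ 2).2
      (Nat.coprime_two_right.2 (odd_two_mul_add_one j))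
    have hv : ((ZMod.unitOfCoprime (2 * j + 1) hc : (ZMod (2 ^ k))ˣ) : ZMod (2 ^ k)).val =
        2 * j + 1 := by
      rw [ZMod.coe_unitOfCoprime, ZMod.val_natCast, Nat.mod_eq_of_lt (by omega)]
    have hj2 : (((ZMod.unitOfCoprime (2 * j + 1) hc : (ZMod (2 ^ k))ˣ) : ZMod (2 ^ k)).val - 1) / 2 = j := by
      rw [hv]; omega
    refine ⟨ZMod.unitOfCoprime (2 * j + 1) hc, ?_, hj2⟩
    rw [mem_VV, ← key2, hj2]
    exact hj.2
  · intro u _
    rw [key]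

theorem chi_sq (j : ℕ) : (ZMod.χ₈ ((2 * j + 1 : ℕ) : ZMod 8)) ^ 2 = 1 := by
  have h2 : ZMod.χ₈ ((2 * j + 1 : ℕ) : ZMod 8) = ZMod.χ₈ ((((2 * j + 1) % 8 : ℕ)) : ZMod 8) := by
    rw [ZMod.natCast_mod]
  rw [h2]
  have h3 : (2 * j + 1) % 8 < 8 := Nat.mod_lt _ (by norm_num)
  have h4 : (2 * j + 1) % 8 % 2 = 1 := by omega
  generalize (2 * j + 1) % 8 = r at h3 h4
  interval_cases r <;> first | omega | decide

/-- central binomial coefficients -/
theorem level {m k : ℕ} (hm : 2 ≤ m) (hk : 2 ≤ k) (hkm : k ≤ m + 2) {p : ℕ} [Fact p.Prime]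
    (hp : p = 2 ^ 2 ^ m + 1) {a : ℕ} (ha : Odd a) (ha2 : a < 2 ^ (k - 1)) :
    ((2 * (a * 2 ^ (2 ^ m - k))).choose (a * 2 ^ (2 ^ m - k)) : ZMod p) ^ 2 ^ (k - 1) =
      ∏ j ∈ (range (2 ^ (k - 1))).filter (fun j => 2 ^ (k - 1) < ee k a j),
        (1 - (tt m k j : ZMod p)) ^ 2 ^ (k - 1) := by
  classical
  have h0 : NeZero (2 ^ k) := ⟨by positivity⟩
  obtain ⟨K, _, _, _⟩ := exists_field k
  have hz := IsCyclotomicExtension.zeta_spec (2 ^ k) ℚ K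
  have hζ := hz.toInteger_isPrimitiveRoot
  obtain ⟨ζ, hζd⟩ : ∃ ζ, ζ = hz.toInteger := ⟨_, rfl⟩
  rw [← hζd] at hζ
  have hmk := two_pow_ge hm
  have hpf : p - 1 = 2 ^ k * 2 ^ (2 ^ m - k) := by
    rw [hp, Nat.add_sub_cancel, ← pow_add]; congr 1; omega
  have h2m := two_pow_eq hp
  have hred : ∀ (θ : ZMod p) (lam : (ZMod (2 ^ k))ˣ → 𝓞 K) (hθ : θ ^ 2 ^ (k - 1) = -1)
      (F : Fam k p ζ θ lam)
      (H : ∀ φ : 𝓞 K →+* ZMod p, φ ζ = θ → ∀ u : (ZMod (2 ^ k))ˣ, ∀ j : ℕ,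
        (u : ZMod (2 ^ k)).val = 2 * j + 1 →
        (θ * φ (lam u)) ^ 2 ^ (k - 1) = (1 - (tt m k j : ZMod p)) ^ 2 ^ (k - 1)),
      ((2 * (a * 2 ^ (2 ^ m - k))).choose (a * 2 ^ (2 ^ m - k)) : ZMod p) ^ 2 ^ (k - 1) =
      ∏ j ∈ (range (2 ^ (k - 1))).filter (fun j => 2 ^ (k - 1) < ee k a j),
        (1 - (tt m k j : ZMod p)) ^ 2 ^ (k - 1) := by
    intro θ lam hθ F H
    obtain ⟨φ, hφ⟩ := exists_hom (by omega : 1 ≤ k) hζ θ hθ
    have h1 := main hk hζ hpf (by positivity) hθ F ha ha2 φ hφ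
    rw [h1]
    have h2 : ∏ u ∈ VV k a, (θ * φ (lam u)) ^ 2 ^ (k - 1) =
        ∏ u ∈ VV k a, (1 - (tt m k (((u : ZMod (2 ^ k)).val - 1) / 2) : ZMod p)) ^ 2 ^ (k - 1) := by
      refine Finset.prod_congr rfl fun u _ => ?_
      apply H φ hφ u
      obtain ⟨c, hc⟩ := val_odd (by omega : 1 ≤ k) u
      omega
    rw [h2, reindex (by omega)
      (fun n => (1 - (tt m k ((n - 1) / 2) : ZMod p)) ^ 2 ^ (k - 1))]
    refine Finset.prod_congr rfl fun j _ => ?_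
    have : (2 * j + 1 - 1) / 2 = j := by omega
    rw [this]
  have hev : Even (2 ^ (k - 1)) := Nat.even_pow.2 ⟨even_two, by omega⟩
  rcases Nat.lt_or_ge (m + 1) k with hlt | hge
  · -- last level
    have hkm2 : k = m + 2 := by omega
    have hw4 : ((2 : ZMod p) ^ 2 ^ (m - 2)) ^ 4 = -1 := by
      rw [← pow_mul]
      have : 2 ^ (m - 2) * 4 = 2 ^ m := by
        have : (4 : ℕ) = 2 ^ 2 := by norm_num
        rw [this, ← pow_add]; congr 1; omega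
      rw [this, h2m]
    have F := famB hm hkm2 hp hζ
    obtain ⟨w, hw⟩ : ∃ w, w = (2 : ZMod p) ^ 2 ^ (m - 2) := ⟨_, rfl⟩
    rw [← hw] at hw4 F
    have h11 : (w - w ^ 3) ^ 2 = 2 := by linear_combination (w ^ 2 - 2) * hw4
    have hpk : 2 ^ (k - 1) = 2 * 2 ^ m := by
      rw [← pow_succ']; congr 1; omega
    refine hred (w - w ^ 3) _ ?_ F ?_
    · rw [hpk, pow_mul, h11, h2m]
    · intro φ hφ u j hj
      have h5 : (w - w ^ 3) ^ 2 ^ (m - 1) = w := by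
        have : 2 ^ (m - 1) = 2 * 2 ^ (m - 2) := by
          rw [← pow_succ']; congr 1; omega
        rw [this, pow_mul, h11, hw]
      rw [map_sub, map_mul, map_sub, map_pow, map_pow, map_pow, hφ, map_intCast, h5, map_pow,
        hφ, hj]
      unfold tt ch
      rw [hj]
      have h6 : m + 2 - k = 0 := by omega
      rw [h6, pow_zero, pow_one, pow_succ (w - w ^ 3) (2 * j), pow_mul (w - w ^ 3) 2 j, h11]
      have h7 := chi_sq j
      generalize ZMod.χ₈ ((2 * j + 1 : ℕ) : ZMod 8) = c at h7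
      have h8 : (c : ZMod p) ^ 2 = 1 := by exact_mod_cast congrArg (Int.cast : ℤ → ZMod p) h7
      have h9 : (w - w ^ 3) * ((c : ZMod p) * (w - w ^ 3) - 2 ^ j * (w - w ^ 3)) =
          (2 * c) * (1 - ((c * 2 ^ j : ℤ) : ZMod p)) := by
        push_cast
        linear_combination ((c : ZMod p) - 2 ^ j) * h11 + 2 * 2 ^ j * h8
      rw [h9, mul_pow]
      have h10 : (2 * (c : ZMod p)) ^ 2 ^ (k - 1) = 1 := by
        rw [mul_pow, hpk, pow_mul (c : ZMod p), h8, one_pow, mul_one, mul_comm, pow_mul, h2m]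
        norm_num
      rw [h10, one_mul]
  · -- lower levels
    have F := famA hk hge hp hζ
    have hpk : 2 ^ (m + 1 - k) * 2 ^ (k - 1) = 2 ^ m := by
      rw [← pow_add]; congr 1; omega
    refine hred ((2 : ZMod p) ^ 2 ^ (m + 1 - k)) _ ?_ F ?_
    · rw [← pow_mul, hpk, h2m]
    · intro φ hφ u j hj
      rw [map_sub, map_pow, map_pow, map_ofNat, hφ, hj]
      unfold tt
      have h7 := chi_sq j
      generalize ZMod.χ₈ ((2 * j + 1 : ℕ) : ZMod 8) = c at h7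
      have h8 : m + 2 - k = (m + 1 - k) + 1 := by omega
      have h9 : (((c * 2 ^ j) ^ 2 ^ (m + 2 - k) : ℤ) : ZMod p) = ((2 : ZMod p) ^ 2 ^ (m + 1 - k)) ^ (2 * j) := by
        rw [h8, pow_succ', pow_mul, mul_pow, h7, one_mul]
        push_cast
        rw [← pow_mul, ← pow_mul, ← pow_mul]
        congr 1; ring
      rw [h9]
      obtain ⟨θ, hθ⟩ : ∃ θ, θ = (2 : ZMod p) ^ 2 ^ (m + 1 - k) := ⟨_, rfl⟩
      rw [← hθ]
      have h10 : θ * (θ - θ ^ (2 * j + 1)) = θ ^ 2 * (1 - θ ^ (2 * j)) := by ring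
      have h11 : (θ ^ 2) ^ 2 ^ (k - 1) = 1 := by
        rw [← pow_mul, mul_comm, pow_mul, hθ, ← pow_mul _ (2 ^ (m + 1 - k)), hpk, h2m]
        norm_num
      rw [h10, mul_pow, h11, one_mul]

end Pool.Agent.L0h40.WT
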