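import Mathlib
import Pool.Agent.L0h40.WT.Level

/-!
Wilson's theorem at the dyadic levels.
-/

namespace Pool.Agent.L0h40.WT

open Finset

theorem ee_lt (k a j : ℕ) : ee k a j < 2 ^ k := by
  have h0 : NeZero (2 ^ k) := ⟨by positivity⟩
  exact ZMod.val_lt _

theorem odd_coprime (k j : ℕ) : Nat.Coprime (2 * j + 1) (2 ^ k) :=
  Nat.Coprime.pow_right k (Nat.coprime_two_right.2 (odd_two_mul_add_one j))

theorem ee_spec (k a j : ℕ) : (2 * j + 1) * ee k a j ≡ a [MOD 2 ^ k] := by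
  have h0 : NeZero (2 ^ k) := ⟨by positivity⟩
  rw [← ZMod.natCast_eq_natCast_iff]
  unfold ee
  rw [Nat.cast_mul, ZMod.natCast_zmod_val]
  have h1 := ZMod.coe_mul_inv_eq_one (2 * j + 1) (odd_coprime k j)
  linear_combination (a : ZMod (2 ^ k)) * h1

theorem ee_unique {k a j e : ℕ} (he : e < 2 ^ k) (h : (2 * j + 1) * e ≡ a [MOD 2 ^ k]) :
    ee k a j = e := by
  have h1 := (ee_spec k a j).trans h.symm
  have h2 := Nat.ModEq.cancel_left_of_coprime (odd_coprime k j).symm h1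
  exact Nat.ModEq.eq_of_lt_of_lt h2 (ee_lt k a j) he

theorem ee_odd {k a j : ℕ} (hk : 1 ≤ k) (ha : Odd a) : Odd (ee k a j) := by
  have h1 := ee_spec k a j
  have h2 : (2 * j + 1) * ee k a j ≡ a [MOD 2] :=
    Nat.ModEq.of_dvd (dvd_pow_self 2 (by omega)) h1
  rw [Nat.odd_iff] at ha ⊢
  have h3 : ((2 * j + 1) * ee k a j) % 2 = 1 := by
    rw [h2, ha]
  rcases Nat.mod_two_eq_zero_or_one (ee k a j) with h | h
  · rw [Nat.mul_mod, h] at h3
    simp at h3
  · exact h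

theorem ee_zero {k a : ℕ} (ha : a < 2 ^ k) : ee k a 0 = a :=
  ee_unique ha (by simp [Nat.ModEq.refl])

theorem ee_mod (k a j : ℕ) (hk : 1 ≤ k) : ee (k - 1) a j = ee k a j % 2 ^ (k - 1) := by
  apply ee_unique (Nat.mod_lt _ (by positivity))
  have h1 : (2 * j + 1) * ee k a j ≡ a [MOD 2 ^ (k - 1)] :=
    Nat.ModEq.of_dvd (pow_dvd_pow 2 (by omega)) (ee_spec k a j)
  exact ((Nat.mod_modEq _ _).mul_left _).trans h1

theorem ee_shift (k a j : ℕ) (hk : 1 ≤ k) : ee k a (2 ^ (k - 1) + j) = ee k a j := by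
  apply ee_unique (ee_lt _ _ _)
  have h1 := ee_spec k a j
  have h2 : (2 * (2 ^ (k - 1) + j) + 1) * ee k a j = (2 * j + 1) * ee k a j + 2 ^ k * ee k a j := by
    have : 2 ^ k = 2 * 2 ^ (k - 1) := by rw [← pow_succ']; congr 1; omega
    rw [this]; ring
  rw [h2]
  unfold Nat.ModEq at h1 ⊢
  rw [Nat.add_mul_mod_self_left]
  exact h1

theorem ee_refl {k a j : ℕ} (hk : 1 ≤ k) (ha : Odd a) (ha2 : a < 2 ^ k) :
    ee k (2 ^ k - a) j + ee k a j = 2 ^ k := by
  have h1 := ee_lt k a j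
  have h2 : 0 < ee k a j := (ee_odd hk ha).pos
  have h3 : ee k (2 ^ k - a) j = 2 ^ k - ee k a j := by
    apply ee_unique (by omega)
    rw [← ZMod.natCast_eq_natCast_iff, Nat.cast_mul, Nat.cast_sub h1.le, Nat.cast_sub ha2.le,
      ZMod.natCast_self]
    have h4 := (ZMod.natCast_eq_natCast_iff _ _ _).2 (ee_spec k a j)
    rw [Nat.cast_mul] at h4
    linear_combination -h4
  omega

/-- pairing -/
theorem pair_prod {M : Type} [CommMonoid M] (G : ℕ → M) (n : ℕ) (hn : 1 ≤ n) :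
    ∏ j ∈ Ico 1 (2 * n), G j = G n * ∏ j ∈ Ico 1 n, (G j * G (n + j)) := by
  have h1 : ∏ j ∈ Ico 1 (2 * n), G j = (∏ j ∈ Ico 1 n, G j) * ∏ j ∈ Ico n (2 * n), G j := by
    rw [Finset.prod_Ico_consecutive _ hn (by omega)]
  have h2 : ∏ j ∈ Ico n (2 * n), G j = G n * ∏ j ∈ Ico 1 n, G (n + j) := by
    have h3 : ∏ j ∈ Ico n (2 * n), G j = ∏ j ∈ Ico 0 n, G (n + j) := by
      have h4 := Finset.prod_Ico_add' (fun j => G j) 0 n n
      rw [zero_add] at h4
      rw [two_mul, ← h4]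
      refine Finset.prod_congr rfl fun j _ => ?_
      rw [add_comm]
    rw [h3, Finset.prod_eq_prod_Ico_succ_bot (by omega)]
    simp
  rw [h1, h2, Finset.prod_mul_distrib]
  rw [mul_left_comm]

/-- the product at level `k` -/
def TT (p m k a : ℕ) : ZMod p :=
  (((a * 2 ^ (2 ^ m - k)).factorial : ℕ) : ZMod p) ^ 2 ^ k *
    ∏ j ∈ Ico 1 (2 ^ (k - 1)), (1 - (tt m k j : ZMod p)) ^ ee k a j

theorem tt_sq {m k j : ℕ} (hk : 1 ≤ k) (hkm : k ≤ m + 2) : tt m k j ^ 2 = tt m (k - 1) j := by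
  unfold tt
  rw [← pow_mul, ← pow_succ]
  congr 2
  omega

theorem tt_zero {m k : ℕ} : tt m k 0 = 1 := by
  unfold tt
  have : ZMod.χ₈ ((2 * 0 + 1 : ℕ) : ZMod 8) = 1 := by decide
  rw [this]
  simp

theorem tt_shift {m k p : ℕ} (hm : 2 ≤ m) (hk : 2 ≤ k) (hkm : k ≤ m + 2) (hp : p = 2 ^ 2 ^ m + 1)
    (j : ℕ) : (tt m k (2 ^ (k - 2) + j) : ZMod p) = - (tt m k j : ZMod p) := by
  unfold tt
  have h2m := two_pow_eq hp
  have hpk : 2 ^ (k - 2) * 2 ^ (m + 2 - k) = 2 ^ m := by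
    rw [← pow_add]; congr 1; omega
  have h1 := chi_sq j
  have h2 := chi_sq (2 ^ (k - 2) + j)
  rw [mul_pow, mul_pow, pow_add, mul_pow, ← pow_mul 2 (2 ^ (k - 2)), hpk]
  have h3 : (ZMod.χ₈ ((2 * (2 ^ (k - 2) + j) + 1 : ℕ) : ZMod 8)) ^ 2 ^ (m + 2 - k) =
      (ZMod.χ₈ ((2 * j + 1 : ℕ) : ZMod 8)) ^ 2 ^ (m + 2 - k) := by
    rcases Nat.lt_or_ge (m + 1) k with hlt | hge
    · have h4 : m + 2 - k = 0 := by omega
      rw [h4, pow_zero, pow_one, pow_one]
      congr 1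
      rw [ZMod.natCast_eq_natCast_iff]
      have h5 : 8 ∣ 2 ^ (k - 1) := by
        have := Nat.pow_dvd_pow 2 (show 3 ≤ k - 1 by omega)
        simpa using this
      obtain ⟨c, hc⟩ := h5
      have h6 : 2 * (2 ^ (k - 2) + j) + 1 = 8 * c + (2 * j + 1) := by
        have : 2 ^ (k - 1) = 2 * 2 ^ (k - 2) := by rw [← pow_succ']; congr 1; omega
        rw [← hc, this]; ring
      rw [h6]
      unfold Nat.ModEq
      rw [Nat.mul_add_mod]
    · have h4 : m + 2 - k = (m + 1 - k) + 1 := by omega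
      rw [h4, pow_succ', pow_mul, pow_mul, h1, h2]
  rw [h3]
  push_cast
  rw [h2m]
  ring

/-- the product of all factors -/
theorem prod_all {m p : ℕ} (hm : 2 ≤ m) (hp : p = 2 ^ 2 ^ m + 1) (k : ℕ) (hk : 1 ≤ k)
    (hkm : k ≤ m + 2) :
    ∏ j ∈ Ico 1 (2 ^ (k - 1)), (1 - (tt m k j : ZMod p)) = 2 ^ (k - 1) := by
  induction k, hk using Nat.le_induction with
  | base => simp
  | succ k hk ih =>
    have ih' := ih (by omega)
    have e1 : k + 1 - 1 = k := rfl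
    have e2 : 2 ^ k = 2 * 2 ^ (k - 1) := by rw [← pow_succ']; congr 1; omega
    rw [e1]
    nth_rewrite 1 [e2]
    rw [pair_prod _ _ (Nat.one_le_two_pow)]
    have h0 := tt_shift hm (by omega : 2 ≤ k + 1) hkm hp 0
    have e3 : k + 1 - 2 = k - 1 := by omega
    rw [e3, add_zero, tt_zero] at h0
    rw [h0]
    have h1 : ∏ j ∈ Ico 1 (2 ^ (k - 1)), ((1 - (tt m (k + 1) j : ZMod p)) *
        (1 - (tt m (k + 1) (2 ^ (k - 1) + j) : ZMod p))) =
        ∏ j ∈ Ico 1 (2 ^ (k - 1)), (1 - (tt m k j : ZMod p)) := by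
      refine Finset.prod_congr rfl fun j _ => ?_
      have h2 := tt_shift hm (by omega : 2 ≤ k + 1) hkm hp j
      rw [e3] at h2
      have h3 := tt_sq (j := j) (by omega : 1 ≤ k + 1) hkm
      rw [e1] at h3
      rw [h2, ← h3]
      push_cast
      ring
    rw [h1, ih']
    have e4 : (2 : ZMod p) ^ k = 2 * 2 ^ (k - 1) := by rw [← pow_succ']; congr 1; omega
    rw [e4]
    push_cast
    ring

/-- from one level to the next -/
theorem step {m k : ℕ} (hm : 2 ≤ m) (hk : 2 ≤ k) (hkm : k ≤ m + 2) {p : ℕ} [Fact p.Prime]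
    (hp : p = 2 ^ 2 ^ m + 1) {a : ℕ} (ha : Odd a) (ha2 : a < 2 ^ (k - 1)) :
    TT p m k a = 2 ^ a * TT p m (k - 1) a := by
  classical
  have hlev := level hm hk hkm hp ha ha2
  have hmk := two_pow_ge hm
  have hkk : 2 ^ k = 2 * 2 ^ (k - 1) := by
    rw [← pow_succ']; congr 1; omega
  have hkk2 : 2 ^ (k - 1) = 2 * 2 ^ (k - 2) := by
    rw [← pow_succ']; congr 1; omega
  unfold TT
  obtain ⟨c, hc⟩ : ∃ c, c = a * 2 ^ (2 ^ m - k) := ⟨_, rfl⟩
  have hc2 : a * 2 ^ (2 ^ m - (k - 1)) = 2 * c := by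
    have : 2 ^ m - (k - 1) = (2 ^ m - k) + 1 := by omega
    rw [this, hc, pow_succ]; ring
  rw [← hc] at hlev
  rw [← hc, hc2]
  have hfac : (((2 * c).factorial : ℕ) : ZMod p) =
      ((2 * c).choose c : ZMod p) * ((c.factorial : ℕ) : ZMod p) ^ 2 := by
    have h2 := Nat.choose_mul_factorial_mul_factorial (show c ≤ 2 * c by omega)
    have h4 : 2 * c - c = c := by omega
    rw [h4] at h2
    have h5 := congrArg (Nat.cast : ℕ → ZMod p) h2
    push_cast at h5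
    rw [← h5]; ring
  -- splitting of the exponents
  have hsplit : ∏ j ∈ Ico 1 (2 ^ (k - 1)), (1 - (tt m k j : ZMod p)) ^ ee k a j =
      (∏ j ∈ Ico 1 (2 ^ (k - 1)), (1 - (tt m k j : ZMod p)) ^ ee (k - 1) a j) *
      ∏ j ∈ (range (2 ^ (k - 1))).filter (fun j => 2 ^ (k - 1) < ee k a j),
        (1 - (tt m k j : ZMod p)) ^ 2 ^ (k - 1) := by
    have h1 : (range (2 ^ (k - 1))).filter (fun j => 2 ^ (k - 1) < ee k a j) =
        (Ico 1 (2 ^ (k - 1))).filter (fun j => 2 ^ (k - 1) < ee k a j) := by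
      ext j
      simp only [Finset.mem_filter, Finset.mem_range, Finset.mem_Ico]
      constructor
      · rintro ⟨h3, h4⟩
        refine ⟨⟨?_, h3⟩, h4⟩
        by_contra h5
        have h6 : j = 0 := by omega
        rw [h6, ee_zero (by omega)] at h4
        omega
      · rintro ⟨⟨_, h3⟩, h4⟩
        exact ⟨h3, h4⟩
    rw [h1, Finset.prod_filter, ← Finset.prod_mul_distrib]
    refine Finset.prod_congr rfl fun j _ => ?_
    have h2 := ee_mod k a j (by omega)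
    have h3 := ee_lt k a j
    have h4 : ee k a j ≠ 2 ^ (k - 1) := by
      intro h
      have h5 := ee_odd (j := j) (by omega : 1 ≤ k) ha
      rw [h] at h5
      have h6 : Even (2 ^ (k - 1)) := Nat.even_pow.2 ⟨even_two, by omega⟩
      exact (Nat.not_even_iff_odd.2 h5) h6
    split_ifs with h5
    · rw [← pow_add, h2]
      congr 1
      have h6 : ee k a j % 2 ^ (k - 1) = ee k a j - 2 ^ (k - 1) := by
        rw [Nat.mod_eq_sub_mod h5.le, Nat.mod_eq_of_lt (by omega)]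
      omega
    · rw [mul_one, h2, Nat.mod_eq_of_lt (by omega)]
  rw [hsplit, ← hlev]
  -- pairing
  have hpair : ∏ j ∈ Ico 1 (2 ^ (k - 1)), (1 - (tt m k j : ZMod p)) ^ ee (k - 1) a j =
      2 ^ a * ∏ j ∈ Ico 1 (2 ^ (k - 1 - 1)), (1 - (tt m (k - 1) j : ZMod p)) ^ ee (k - 1) a j := by
    nth_rewrite 1 [hkk2]
    rw [pair_prod _ _ (Nat.one_le_two_pow)]
    have h0 := tt_shift hm hk hkm hp 0
    rw [add_zero, tt_zero] at h0
    have h1 := ee_shift (k - 1) a 0 (by omega)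
    rw [add_zero, ee_zero ha2] at h1
    have e1 : k - 1 - 1 = k - 2 := by omega
    rw [e1] at h1 ⊢
    rw [h0, h1]
    congr 1
    · congr 1
      push_cast
      ring
    · refine Finset.prod_congr rfl fun j _ => ?_
      have h2 := tt_shift hm hk hkm hp j
      have h3 := tt_sq (m := m) (k := k) (j := j) (by omega) hkm
      have h4 := ee_shift (k - 1) a j (by omega)
      rw [e1] at h4
      rw [h4, ← mul_pow, h2, ← h3]
      congr 1
      push_cast
      ring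
  rw [hpair, hfac, mul_pow, ← pow_mul, ← hkk]
  ring

/-- the base case -/
theorem base {m : ℕ} (hm : 2 ≤ m) {p : ℕ} [Fact p.Prime] (hp : p = 2 ^ 2 ^ m + 1) :
    TT p m 1 1 = -1 := by
  unfold TT
  have hmk := two_pow_ge hm
  have h1 : 2 ^ 2 ^ m = 2 * 2 ^ (2 ^ m - 1) := by rw [← pow_succ']; congr 1; omega
  have h2 := fact_refl (p := p) (2 ^ (2 ^ m - 1)) (by omega)
  have h3 : p - 1 - 2 ^ (2 ^ m - 1) = 2 ^ (2 ^ m - 1) := by omega
  rw [h3] at h2
  have h4 : Even (2 ^ (2 ^ m - 1)) := Nat.even_pow.2 ⟨even_two, by omega⟩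
  rw [h4.add_one.neg_one_pow] at h2
  simp only [one_mul, pow_one, Nat.sub_self, pow_zero, Finset.Ico_self, Finset.prod_empty, mul_one]
  rw [pow_two, h2]

/-- reflection -/
theorem refl_TT {m k : ℕ} (hm : 2 ≤ m) (hk : 1 ≤ k) (hkm : k ≤ m + 2) {p : ℕ} [Fact p.Prime]
    (hp : p = 2 ^ 2 ^ m + 1) {a : ℕ} (ha : Odd a) (ha2 : a < 2 ^ k) :
    TT p m k (2 ^ k - a) * TT p m k a = (2 ^ (k - 1)) ^ 2 ^ k := by
  have hmk := two_pow_ge hm
  unfold TT
  have hpf : p - 1 = 2 ^ k * 2 ^ (2 ^ m - k) := by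
    rw [hp, Nat.add_sub_cancel, ← pow_add]; congr 1; omega
  have hp1 : 1 < p := (Fact.out : p.Prime).one_lt
  have h1 : a * 2 ^ (2 ^ m - k) < p := by
    have : a * 2 ^ (2 ^ m - k) ≤ 2 ^ k * 2 ^ (2 ^ m - k) := Nat.mul_le_mul_right _ ha2.le
    omega
  have h2 := fact_refl (p := p) _ h1
  have h3 : p - 1 - a * 2 ^ (2 ^ m - k) = (2 ^ k - a) * 2 ^ (2 ^ m - k) := by
    rw [hpf, Nat.sub_mul]
  rw [h3] at h2
  have h4 : ∏ j ∈ Ico 1 (2 ^ (k - 1)), (1 - (tt m k j : ZMod p)) ^ ee k (2 ^ k - a) j *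
      (1 - (tt m k j : ZMod p)) ^ ee k a j = (2 ^ (k - 1)) ^ 2 ^ k := by
    rw [← prod_all hm hp k hk hkm, ← Finset.prod_pow]
    refine Finset.prod_congr rfl fun j _ => ?_
    rw [← pow_add, ee_refl hk ha ha2]
  rw [Finset.prod_mul_distrib] at h4
  have h5 : ((((2 ^ k - a) * 2 ^ (2 ^ m - k)).factorial : ℕ) : ZMod p) ^ 2 ^ k *
      (((a * 2 ^ (2 ^ m - k)).factorial : ℕ) : ZMod p) ^ 2 ^ k = 1 := by
    rw [← mul_pow, mul_comm, h2]
    have h6 : Even (2 ^ k) := Nat.even_pow.2 ⟨even_two, by omega⟩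
    rw [← pow_mul, mul_comm, pow_mul, h6.neg_one_pow, one_pow]
  rw [← h4]
  linear_combination (∏ j ∈ Ico 1 (2 ^ (k - 1)), (1 - (tt m k j : ZMod p)) ^ ee k (2 ^ k - a) j) *
    (∏ j ∈ Ico 1 (2 ^ (k - 1)), (1 - (tt m k j : ZMod p)) ^ ee k a j) * h5

/-- the generalized Wilson theorem -/
theorem wilson {m : ℕ} (hm : 2 ≤ m) {p : ℕ} [Fact p.Prime] (hp : p = 2 ^ 2 ^ m + 1) (k : ℕ)
    (hk : 1 ≤ k) : k ≤ m + 2 → ∀ a : ℕ, Odd a → a < 2 ^ k →
    TT p m k a = - 2 ^ (a * (k - 1)) := by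
  induction k, hk using Nat.le_induction with
  | base =>
    intro _ a ha ha2
    have h1 : a = 1 := by
      obtain ⟨c, hc⟩ := ha
      omega
    rw [h1, base hm hp]
    simp
  | succ k hk ih =>
    intro hkm a ha ha2
    have e1 : k + 1 - 1 = k := rfl
    have hkk : 2 ^ (k + 1) = 2 * 2 ^ k := by rw [← pow_succ']
    have low : ∀ b : ℕ, Odd b → b < 2 ^ k → TT p m (k + 1) b = - 2 ^ (b * (k + 1 - 1)) := by
      intro b hb hb2
      rw [step hm (by omega) hkm hp hb (by rw [e1]; exact hb2), e1,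
        ih (by omega) b hb hb2]
      have h3 : (2 : ZMod p) ^ (b * k) = 2 ^ b * 2 ^ (b * (k - 1)) := by
        rw [← pow_add]
        congr 1
        obtain ⟨c, rfl⟩ : ∃ c, k = c + 1 := ⟨k - 1, by omega⟩
        rw [Nat.add_sub_cancel]; ring
      rw [h3]; ring
    rcases Nat.lt_or_ge a (2 ^ k) with h | h
    · exact low a ha h
    · have h1 : a ≠ 2 ^ k := by
        intro h2
        rw [h2] at ha
        have h6 : Even (2 ^ k) := Nat.even_pow.2 ⟨even_two, by omega⟩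
        exact (Nat.not_even_iff_odd.2 ha) h6
      have h2 : Odd (2 ^ (k + 1) - a) := by
        obtain ⟨c, hc⟩ := ha
        refine ⟨2 ^ k - c - 1, ?_⟩
        omega
      have h3 := low (2 ^ (k + 1) - a) h2 (by omega)
      have h4 := refl_TT hm (by omega : 1 ≤ k + 1) hkm hp ha ha2
      rw [h3, e1] at h4
      have h5 : (2 : ZMod p) ^ ((2 ^ (k + 1) - a) * k) ≠ 0 := by
        apply pow_ne_zero
        intro h6
        have h7 := two_pow_eq hp
        rw [h6, zero_pow (by positivity)] at h7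
        have h8 : (1 : ZMod p) = 0 := by linear_combination h7
        exact one_ne_zero h8
      apply mul_left_cancel₀ h5
      have h6 : ((2 : ZMod p) ^ k) ^ 2 ^ (k + 1) =
          2 ^ ((2 ^ (k + 1) - a) * k) * 2 ^ (a * k) := by
        rw [← pow_mul, ← pow_add]
        congr 1
        rw [← Nat.add_mul, Nat.sub_add_cancel ha2.le, mul_comm]
      rw [h6] at h4
      rw [e1]
      linear_combination -h4

end Pool.Agent.L0h40.WT
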